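import Pool.Agent.H59.L.S8.H888R2.KT.Defs
import Pool.Agent.H59.L.S8.W923.SK.Field

/-!
# The coefficient function of the vector field

For `y`, `z` in an inner product space, `ph R r y z` is the speed with which a far particle at `y`
moves away from a particle at `z` near the origin.
-/

set_option autoImplicit false

namespace Pool.Agent.TH594.KP.Coef

open scoped InnerProductSpace
open Pool.Agent.W923.SKF (cd_sq hd_sq)

section real

/-- the derivative of the coefficient in normalised variables (times `R`), plus the divergence term -/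
theorem norm_id (l e u v σ m d : ℝ) (hl : l ≠ 0) (he : e ≠ 0) :
    ((-((u * l) ^ 2 - 2 * (σ * (e * l) * l) + (v * (e * l)) ^ 2) / ((e * l) * l) -
      (σ * (e * l) * l) * (((u * l) ^ 2 - σ * (e * l) * l) / l) / ((e * l) * l ^ 2)) * m ^ 2 +
      (1 + (σ * (e * l) * l) / ((e * l) * l)) *
        (2 * m * (2 * (σ * (e * l) * l - (v * (e * l)) ^ 2) / (e * l) ^ 2))) / l -
      (1 + (σ * (e * l) * l) / ((e * l) * l)) * m ^ 2 *
        (((u * l) ^ 2 - σ * (e * l) * l) / l) / l ^ 2 +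
      2 * d * ((1 + (σ * (e * l) * l) / ((e * l) * l)) * m ^ 2 / l) =
    1 / (e * l) * (-(u ^ 2 - 2 * e * σ + e ^ 2 * v ^ 2) * m ^ 2 - e * σ * (u ^ 2 - e * σ) * m ^ 2 +
      4 * (1 + σ) * m * (σ - e * v ^ 2) - e * (1 + σ) * m ^ 2 * (u ^ 2 - e * σ) +
      2 * d * e * (1 + σ) * m ^ 2) := by
  field_simp
  ring

theorem norm_up (e u v σ m d : ℝ) (he0 : 0 < e) (hd : 0 ≤ d) (hed : 80 * (d + 1) * e ≤ 1)
    (hu0 : 0 ≤ u) (hu1 : u ≤ 1) (hv0 : 0 ≤ v) (hv1 : v ≤ 1) (hσ : |σ| ≤ u * v) (hm0 : 0 ≤ m)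
    (hm1 : m ≤ 1) :
    -(u ^ 2 - 2 * e * σ + e ^ 2 * v ^ 2) * m ^ 2 - e * σ * (u ^ 2 - e * σ) * m ^ 2 +
      4 * (1 + σ) * m * (σ - e * v ^ 2) - e * (1 + σ) * m ^ 2 * (u ^ 2 - e * σ) +
      2 * d * e * (1 + σ) * m ^ 2 ≤ 9 := by
  have he1 : 80 * e ≤ 1 := by nlinarith [mul_nonneg hd he0.le]
  have hde : d * e ≤ 1 / 80 := by nlinarith
  obtain ⟨s1, s2⟩ := abs_le.1 hσ
  have huv : u * v ≤ 1 := mul_le_one₀ hu1 hv0 hv1
  have huv0 : 0 ≤ u * v := mul_nonneg hu0 hv0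
  have hs1 : -1 ≤ σ := by linarith
  have hs2 : σ ≤ 1 := by linarith
  have hm2 : m ^ 2 ≤ 1 := pow_le_one₀ hm0 hm1
  have hm20 : 0 ≤ m ^ 2 := sq_nonneg m
  have t1 : -(u ^ 2 - 2 * e * σ + e ^ 2 * v ^ 2) * m ^ 2 ≤ 0 := by
    have h1 : 0 ≤ u ^ 2 - 2 * e * σ + e ^ 2 * v ^ 2 := by
      nlinarith [sq_nonneg (u - e * v)]
    have := mul_nonneg h1 hm20
    linarith
  have t2 : -(e * σ * (u ^ 2 - e * σ) * m ^ 2) ≤ 2 * e := by
    have h1 : |e * σ * (u ^ 2 - e * σ) * m ^ 2| ≤ e * 1 * 2 * 1 := by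
      rw [abs_mul, abs_mul, abs_mul, abs_of_pos he0, abs_of_nonneg hm20]
      have a1 : |σ| ≤ 1 := by linarith
      have a2 : |u ^ 2 - e * σ| ≤ 2 := by
        rw [abs_le]
        constructor <;> nlinarith
      have a3 : 0 ≤ |σ| := abs_nonneg _
      have a4 : 0 ≤ |u ^ 2 - e * σ| := abs_nonneg _
      refine mul_le_mul (mul_le_mul (mul_le_mul le_rfl a1 a3 he0.le) a2 a4 (by positivity)) hm2
        hm20 (by positivity)
    have h2 := neg_abs_le (e * σ * (u ^ 2 - e * σ) * m ^ 2)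
    linarith
  have t3 : 4 * (1 + σ) * m * (σ - e * v ^ 2) ≤ 8 := by
    have h1 : 0 ≤ (1 + σ) * m := mul_nonneg (by linarith) hm0
    have h2 : (1 + σ) * m ≤ 2 := by nlinarith
    have h3 : σ - e * v ^ 2 ≤ 1 := by
      have : 0 ≤ e * v ^ 2 := by positivity
      linarith
    have h4 : (1 + σ) * m * (σ - e * v ^ 2) ≤ (1 + σ) * m * 1 := mul_le_mul_of_nonneg_left h3 h1
    linarith
  have t4 : -(e * (1 + σ) * m ^ 2 * (u ^ 2 - e * σ)) ≤ 2 * e := by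
    have h1 : 0 ≤ e * (1 + σ) * m ^ 2 := by
      have : 0 ≤ 1 + σ := by linarith
      positivity
    have h2 : -(u ^ 2 - e * σ) ≤ 1 := by nlinarith [sq_nonneg u]
    have h3 : e * (1 + σ) * m ^ 2 ≤ e * 2 * 1 := by
      refine mul_le_mul (mul_le_mul le_rfl (by linarith) (by linarith) he0.le) hm2 hm20
        (by positivity)
    have h4 : e * (1 + σ) * m ^ 2 * (-(u ^ 2 - e * σ)) ≤ e * (1 + σ) * m ^ 2 * 1 :=
      mul_le_mul_of_nonneg_left h2 h1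
    linarith
  have t5 : 2 * d * e * (1 + σ) * m ^ 2 ≤ 4 * (d * e) := by
    have h1 : 0 ≤ 2 * d * e := by positivity
    have h2 : (1 + σ) * m ^ 2 ≤ 2 * 1 :=
      mul_le_mul (by linarith) hm2 hm20 (by norm_num)
    have h3 : 2 * d * e * ((1 + σ) * m ^ 2) ≤ 2 * d * e * (2 * 1) :=
      mul_le_mul_of_nonneg_left h2 h1
    linarith
  nlinarith

theorem norm_lo (e u v σ m d : ℝ) (he0 : 0 < e) (hd : 0 ≤ d) (hed : 80 * (d + 1) * e ≤ 1)
    (hu0 : 0 ≤ u) (hu1 : u ≤ 1) (hu2 : 1 / 2 ≤ u ^ 2) (hv0 : 0 ≤ v) (hv1 : v ≤ 1 / 32)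
    (hσ : |σ| ≤ u * v) (hm : m = 1 - v ^ 2) :
    -(u ^ 2 - 2 * e * σ + e ^ 2 * v ^ 2) * m ^ 2 - e * σ * (u ^ 2 - e * σ) * m ^ 2 +
      4 * (1 + σ) * m * (σ - e * v ^ 2) - e * (1 + σ) * m ^ 2 * (u ^ 2 - e * σ) +
      2 * d * e * (1 + σ) * m ^ 2 ≤ -(1 / 4) := by
  have he1 : 80 * e ≤ 1 := by nlinarith [mul_nonneg hd he0.le]
  have hde : d * e + e ≤ 1 / 80 := by nlinarith
  obtain ⟨s1, s2⟩ := abs_le.1 hσ
  have huv : u * v ≤ 1 / 32 := by nlinarith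
  have huv0 : 0 ≤ u * v := mul_nonneg hu0 hv0
  have hs1 : -(1 / 32) ≤ σ := by linarith
  have hs2 : σ ≤ 1 / 32 := by linarith
  have hv2 : v ^ 2 ≤ 1 / 1024 := by nlinarith
  have hv20 : 0 ≤ v ^ 2 := sq_nonneg v
  have hm0 : 1 - 1 / 1024 ≤ m := by rw [hm]; linarith
  have hm1 : m ≤ 1 := by rw [hm]; linarith
  have hm2 : m ^ 2 ≤ 1 := pow_le_one₀ (by linarith) hm1
  have hm20 : 99 / 100 ≤ m ^ 2 := by nlinarith
  have t1 : -(u ^ 2 - 2 * e * σ + e ^ 2 * v ^ 2) * m ^ 2 ≤ -(49 / 100) := by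
    have h1 : 499 / 1000 ≤ u ^ 2 - 2 * e * σ + e ^ 2 * v ^ 2 := by
      have h2 : e * σ ≤ 1 / 80 * (1 / 32) := by nlinarith
      nlinarith [mul_nonneg (sq_nonneg e) hv20]
    nlinarith
  have t2 : -(e * σ * (u ^ 2 - e * σ) * m ^ 2) ≤ 2 * e := by
    have h1 : |e * σ * (u ^ 2 - e * σ) * m ^ 2| ≤ e * 1 * 2 * 1 := by
      rw [abs_mul, abs_mul, abs_mul, abs_of_pos he0, abs_of_nonneg (by linarith : 0 ≤ m ^ 2)]
      have a1 : |σ| ≤ 1 := by linarith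
      have a2 : |u ^ 2 - e * σ| ≤ 2 := by
        rw [abs_le]
        constructor <;> nlinarith
      have a3 : 0 ≤ |σ| := abs_nonneg _
      have a4 : 0 ≤ |u ^ 2 - e * σ| := abs_nonneg _
      refine mul_le_mul (mul_le_mul (mul_le_mul le_rfl a1 a3 he0.le) a2 a4 (by positivity)) hm2
        (by linarith) (by positivity)
    have h2 := neg_abs_le (e * σ * (u ^ 2 - e * σ) * m ^ 2)
    linarith
  have t3 : 4 * (1 + σ) * m * (σ - e * v ^ 2) ≤ 13 / 100 := by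
    have h1 : 0 ≤ (1 + σ) * m := mul_nonneg (by linarith) (by linarith)
    have h2 : (1 + σ) * m ≤ 33 / 32 := by nlinarith
    have h3 : σ - e * v ^ 2 ≤ 1 / 32 := by
      have : 0 ≤ e * v ^ 2 := by positivity
      linarith
    have h4 : (1 + σ) * m * (σ - e * v ^ 2) ≤ (1 + σ) * m * (1 / 32) :=
      mul_le_mul_of_nonneg_left h3 h1
    linarith
  have t4 : -(e * (1 + σ) * m ^ 2 * (u ^ 2 - e * σ)) ≤ 0 := by
    have h1 : 0 ≤ e * (1 + σ) * m ^ 2 := by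
      have : 0 ≤ 1 + σ := by linarith
      positivity
    have h2 : 0 ≤ u ^ 2 - e * σ := by nlinarith
    have h3 := mul_nonneg h1 h2
    linarith
  have t5 : 2 * d * e * (1 + σ) * m ^ 2 ≤ 4 * (d * e) := by
    have h1 : 0 ≤ 2 * d * e := by positivity
    have h2 : (1 + σ) * m ^ 2 ≤ 2 * 1 :=
      mul_le_mul (by linarith) hm2 (by linarith) (by norm_num)
    have h3 : 2 * d * e * ((1 + σ) * m ^ 2) ≤ 2 * d * e * (2 * 1) :=
      mul_le_mul_of_nonneg_left h2 h1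
    linarith
  nlinarith

end real

variable {W : Type*} [NormedAddCommGroup W] [InnerProductSpace ℝ W]

/-- `√(r² + ‖y‖²)` -/
noncomputable def el (r : ℝ) (y : W) : ℝ := Real.sqrt (r ^ 2 + ‖y‖ ^ 2)

/-- cutoff `(1 - ‖z‖²/R²)₊` -/
noncomputable def cu (R : ℝ) (z : W) : ℝ := max (1 - ‖z‖ ^ 2 / R ^ 2) 0

/-- the coefficient -/
noncomputable def ph (R r : ℝ) (y z : W) : ℝ :=
  (1 + ⟪y, z⟫_ℝ / (R * el r y)) * cu R z ^ 2 / el r y

/-- derivative of the coefficient when `y` and `z` move apart -/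
noncomputable def dph (R r : ℝ) (y z : W) : ℝ :=
  ((-(‖y‖ ^ 2 - 2 * ⟪y, z⟫_ℝ + ‖z‖ ^ 2) / (R * el r y) -
      ⟪y, z⟫_ℝ * ((‖y‖ ^ 2 - ⟪y, z⟫_ℝ) / el r y) / (R * el r y ^ 2)) * cu R z ^ 2 +
      (1 + ⟪y, z⟫_ℝ / (R * el r y)) *
        (2 * cu R z * (2 * (⟪y, z⟫_ℝ - ‖z‖ ^ 2) / R ^ 2))) / el r y -
      (1 + ⟪y, z⟫_ℝ / (R * el r y)) * cu R z ^ 2 *
        ((‖y‖ ^ 2 - ⟪y, z⟫_ℝ) / el r y) / el r y ^ 2

omit [InnerProductSpace ℝ W] in
theorem el_pos {r : ℝ} (hr : 0 < r) (y : W) : 0 < el r y := by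
  unfold el
  positivity

omit [InnerProductSpace ℝ W] in
theorem el_sq (r : ℝ) (y : W) : el r y ^ 2 = r ^ 2 + ‖y‖ ^ 2 := by
  unfold el
  rw [Real.sq_sqrt (by positivity)]

omit [InnerProductSpace ℝ W] in
theorem le_el {r : ℝ} (hr : 0 < r) (y : W) : r ≤ el r y := by
  have h1 := el_sq r y
  have h2 := el_pos hr y
  nlinarith [sq_nonneg ‖y‖]

omit [InnerProductSpace ℝ W] in
theorem norm_le_el {r : ℝ} (hr : 0 < r) (y : W) : ‖y‖ ≤ el r y := by
  have h1 := el_sq r y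
  have h2 := el_pos hr y
  nlinarith [norm_nonneg y, sq_nonneg r]

omit [InnerProductSpace ℝ W] in
theorem cu_nonneg (R : ℝ) (z : W) : 0 ≤ cu R z := le_max_right _ _

omit [InnerProductSpace ℝ W] in
theorem cu_le (R : ℝ) (z : W) : cu R z ≤ 1 := by
  unfold cu
  refine max_le ?_ (by norm_num)
  have : 0 ≤ ‖z‖ ^ 2 / R ^ 2 := by positivity
  linarith

omit [InnerProductSpace ℝ W] in
theorem cu_zero {R : ℝ} (hR : 0 < R) {z : W} (hz : R ≤ ‖z‖) : cu R z = 0 := by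
  unfold cu
  refine max_eq_right ?_
  rw [sub_nonpos, one_le_div (by positivity)]
  exact pow_le_pow_left₀ hR.le hz 2

/-- normalised variables -/
theorem vars {R r : ℝ} (hR : 0 < R) (hr : 0 < r) (y z : W) :
    ∃ e u v σ : ℝ, 0 < e ∧ 0 ≤ u ∧ u ≤ 1 ∧ 0 ≤ v ∧ |σ| ≤ u * v ∧ R = e * el r y ∧
      ‖y‖ = u * el r y ∧ ‖z‖ = v * R ∧ ⟪y, z⟫_ℝ = σ * R * el r y := by
  have hl := el_pos hr y
  refine ⟨R / el r y, ‖y‖ / el r y, ‖z‖ / R, ⟪y, z⟫_ℝ / (R * el r y), by positivity, by positivity,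
    (div_le_one hl).2 (norm_le_el hr y), by positivity, ?_, ?_, ?_, ?_, ?_⟩
  · rw [abs_div, abs_of_pos (by positivity : 0 < R * el r y), div_mul_div_comm, mul_comm R]
    exact div_le_div_of_nonneg_right (abs_real_inner_le_norm y z) (by positivity)
  · field_simp
  · field_simp
  · field_simp
  · field_simp

theorem up {R r d : ℝ} (hR : 0 < R) (hd : 0 ≤ d) (hr : 80 * (d + 1) * R ≤ r) (y z : W) :
    dph R r y z + 2 * d * ph R r y z ≤ 9 / R := by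
  have hr0 : 0 < r := lt_of_lt_of_le (by positivity) hr
  have hl := el_pos hr0 y
  by_cases hz : R ≤ ‖z‖
  · have h0 := cu_zero hR hz
    unfold dph ph
    rw [h0]
    simp only [ne_eq, OfNat.ofNat_ne_zero, not_false_eq_true, zero_pow, mul_zero, zero_div,
      zero_mul, add_zero, sub_zero]
    positivity
  · push Not at hz
    obtain ⟨e, u, v, σ, he, hu0, hu1, hv0, hσ, e1, e2, e3, e4⟩ := vars hR hr0 y z
    have hed : 80 * (d + 1) * e ≤ 1 := by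
      have h1 := hr.trans (le_el hr0 y)
      rw [e1] at h1
      have h2 : (80 * (d + 1) * e) * el r y ≤ 1 * el r y := by linarith
      exact le_of_mul_le_mul_right h2 hl
    have hv1 : v ≤ 1 := by
      rw [e3] at hz
      have h2 : v * R < 1 * R := by linarith
      exact (lt_of_mul_lt_mul_right h2 hR.le).le
    have key := norm_up e u v σ (cu R z) d he hd hed hu0 hu1 hv0 hv1 hσ (cu_nonneg R z) (cu_le R z)
    have hid := norm_id (el r y) e u v σ (cu R z) d hl.ne' he.ne'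
    have h1 : dph R r y z + 2 * d * ph R r y z = 1 / (e * el r y) *
        (-(u ^ 2 - 2 * e * σ + e ^ 2 * v ^ 2) * cu R z ^ 2 - e * σ * (u ^ 2 - e * σ) * cu R z ^ 2 +
      4 * (1 + σ) * cu R z * (σ - e * v ^ 2) - e * (1 + σ) * cu R z ^ 2 * (u ^ 2 - e * σ) +
      2 * d * e * (1 + σ) * cu R z ^ 2) := by
      rw [← hid]
      unfold dph ph
      rw [e2, e4, e3, ← e1]
    rw [h1, ← e1]
    calc 1 / R * _ ≤ 1 / R * 9 := mul_le_mul_of_nonneg_left key (by positivity)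
      _ = 9 / R := by ring

theorem lo {R r d : ℝ} (hR : 0 < R) (hd : 0 ≤ d) (hr : 80 * (d + 1) * R ≤ r) (y z : W)
    (hy : r ≤ ‖y‖) (hz : ‖z‖ ≤ R / 32) :
    dph R r y z + 2 * d * ph R r y z ≤ -(1 / (4 * R)) := by
  have hr0 : 0 < r := lt_of_lt_of_le (by positivity) hr
  have hl := el_pos hr0 y
  obtain ⟨e, u, v, σ, he, hu0, hu1, hv0, hσ, e1, e2, e3, e4⟩ := vars hR hr0 y z
  have hed : 80 * (d + 1) * e ≤ 1 := by
    have h1 := hr.trans (le_el hr0 y)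
    rw [e1] at h1
    have h2 : (80 * (d + 1) * e) * el r y ≤ 1 * el r y := by linarith
    exact le_of_mul_le_mul_right h2 hl
  have hv1 : v ≤ 1 / 32 := by
    rw [e3] at hz
    have h2 : v * R ≤ 1 / 32 * R := by linarith
    exact le_of_mul_le_mul_right h2 hR
  have hu2 : 1 / 2 ≤ u ^ 2 := by
    have h1 := el_sq r y
    have h2 : r ^ 2 ≤ ‖y‖ ^ 2 := pow_le_pow_left₀ hr0.le hy 2
    rw [e2] at h1 h2
    have h3 : 1 / 2 * el r y ^ 2 ≤ u ^ 2 * el r y ^ 2 := by nlinarith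
    exact le_of_mul_le_mul_right h3 (by positivity)
  have hm : cu R z = 1 - v ^ 2 := by
    unfold cu
    rw [e3]
    have h1 : (v * R) ^ 2 / R ^ 2 = v ^ 2 := by field_simp
    rw [h1]
    refine max_eq_left ?_
    nlinarith
  have key := norm_lo e u v σ (cu R z) d he hd hed hu0 hu1 hu2 hv0 hv1 hσ hm
  have hid := norm_id (el r y) e u v σ (cu R z) d hl.ne' he.ne'
  have h1 : dph R r y z + 2 * d * ph R r y z = 1 / (e * el r y) *
      (-(u ^ 2 - 2 * e * σ + e ^ 2 * v ^ 2) * cu R z ^ 2 - e * σ * (u ^ 2 - e * σ) * cu R z ^ 2 +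
    4 * (1 + σ) * cu R z * (σ - e * v ^ 2) - e * (1 + σ) * cu R z ^ 2 * (u ^ 2 - e * σ) +
    2 * d * e * (1 + σ) * cu R z ^ 2) := by
    rw [← hid]
    unfold dph ph
    rw [e2, e4, e3, ← e1]
  rw [h1, ← e1]
  calc 1 / R * _ ≤ 1 / R * (-(1 / 4)) := mul_le_mul_of_nonneg_left key (by positivity)
    _ = -(1 / (4 * R)) := by field_simp

theorem ph_nonneg {R r : ℝ} (hR : 0 < R) (hr : 0 < r) (y z : W) : 0 ≤ ph R r y z := by
  have hl := el_pos hr y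
  by_cases hz : R ≤ ‖z‖
  · unfold ph
    rw [cu_zero hR hz]
    simp
  · push Not at hz
    obtain ⟨e, u, v, σ, he, hu0, hu1, hv0, hσ, e1, e2, e3, e4⟩ := vars hR hr y z
    have hv1 : v ≤ 1 := by
      rw [e3] at hz
      have h2 : v * R < 1 * R := by linarith
      exact (lt_of_mul_lt_mul_right h2 hR.le).le
    have h1 : 0 ≤ 1 + σ := by
      have h2 := (abs_le.1 hσ).1
      nlinarith
    unfold ph
    have h3 : ⟪y, z⟫_ℝ / (R * el r y) = σ := by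
      rw [e4]
      field_simp
    rw [h3]
    positivity

theorem ph_norm {R r : ℝ} (hR : 0 < R) (hr : 80 * R ≤ r) (y z : W) :
    ph R r y z * (2 * ‖y - z‖) ≤ 5 := by
  have hr0 : 0 < r := lt_of_lt_of_le (by positivity) hr
  have hl := el_pos hr0 y
  by_cases hz : R ≤ ‖z‖
  · unfold ph
    rw [cu_zero hR hz]
    simp
  · push Not at hz
    obtain ⟨e, u, v, σ, he, hu0, hu1, hv0, hσ, e1, e2, e3, e4⟩ := vars hR hr0 y z
    have hv1 : v ≤ 1 := by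
      rw [e3] at hz
      have h2 : v * R < 1 * R := by linarith
      exact (lt_of_mul_lt_mul_right h2 hR.le).le
    have h1 : 0 ≤ 1 + σ ∧ 1 + σ ≤ 2 := by
      obtain ⟨h2, h2'⟩ := abs_le.1 hσ
      constructor <;> nlinarith
    have h3 : ⟪y, z⟫_ℝ / (R * el r y) = σ := by
      rw [e4]
      field_simp
    have h4 : ph R r y z ≤ 2 / el r y := by
      unfold ph
      rw [h3]
      refine div_le_div_of_nonneg_right ?_ hl.le
      have h5 : cu R z ^ 2 ≤ 1 := pow_le_one₀ (cu_nonneg R z) (cu_le R z)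
      nlinarith [sq_nonneg (cu R z)]
    have h5 : ‖y - z‖ ≤ 81 / 80 * el r y := by
      have h6 := norm_sub_le y z
      have h7 := norm_le_el hr0 y
      have h8 := le_el hr0 y
      linarith
    have h6 : 0 ≤ ph R r y z := ph_nonneg hR hr0 y z
    calc ph R r y z * (2 * ‖y - z‖) ≤ (2 / el r y) * (2 * (81 / 80 * el r y)) := by
          refine mul_le_mul h4 (by linarith) (by positivity) (by positivity)
      _ = 81 / 20 := by field_simp; norm_num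
      _ ≤ 5 := by norm_num

theorem poly_deriv (a b c : ℝ) : HasDerivAt (fun t : ℝ => a + b * t + c * t ^ 2) b 0 := by
  have h1 : HasDerivAt (fun t : ℝ => a + b * t) b 0 := by
    simpa using ((hasDerivAt_id' (0 : ℝ)).const_mul b).const_add a
  have h2 : HasDerivAt (fun t : ℝ => c * t ^ 2) 0 0 := by
    simpa using (hasDerivAt_pow 2 (0 : ℝ)).const_mul c
  have h3 := h1.fun_add h2
  simpa using h3

/-- the derivative along the spreading direction -/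
theorem hd_ph {R r : ℝ} (hR : 0 < R) (hr : 0 < r) (y z : W) :
    HasDerivAt (fun t : ℝ => ph R r (y + t • (y - z)) (z - t • (y - z))) (dph R r y z) 0 := by
  have hl := el_pos hr y
  obtain ⟨w, hw⟩ : ∃ w : W, w = y - z := ⟨_, rfl⟩
  have hyw : ⟪y, w⟫_ℝ = ‖y‖ ^ 2 - ⟪y, z⟫_ℝ := by
    rw [hw, inner_sub_right, real_inner_self_eq_norm_sq]
  have hzw : ⟪z, w⟫_ℝ = ⟪y, z⟫_ℝ - ‖z‖ ^ 2 := by
    rw [hw, inner_sub_right, real_inner_self_eq_norm_sq, real_inner_comm]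
  rw [← hw]
  have hs : HasDerivAt (fun t : ℝ => ⟪y + t • w, z - t • w⟫_ℝ)
      (-(‖y‖ ^ 2 - 2 * ⟪y, z⟫_ℝ + ‖z‖ ^ 2)) 0 := by
    have h1 : (fun t : ℝ => ⟪y + t • w, z - t • w⟫_ℝ) =
        fun t => ⟪y, z⟫_ℝ + (-(‖y‖ ^ 2 - 2 * ⟪y, z⟫_ℝ + ‖z‖ ^ 2)) * t + (-⟪w, w⟫_ℝ) * t ^ 2 := by
      funext t
      rw [inner_add_left, inner_sub_right, inner_sub_right, real_inner_smul_left,
        real_inner_smul_left, real_inner_smul_right, real_inner_smul_right, hyw,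
        real_inner_comm z w, hzw]
      ring
    rw [h1]
    exact poly_deriv _ _ _
  have hy2 : HasDerivAt (fun t : ℝ => ‖y + t • w‖ ^ 2) (2 * (‖y‖ ^ 2 - ⟪y, z⟫_ℝ)) 0 := by
    have h1 : (fun t : ℝ => ‖y + t • w‖ ^ 2) =
        fun t => ‖y‖ ^ 2 + (2 * (‖y‖ ^ 2 - ⟪y, z⟫_ℝ)) * t + ‖w‖ ^ 2 * t ^ 2 := by
      funext t
      rw [norm_add_sq_real, real_inner_smul_right, norm_smul, mul_pow, Real.norm_eq_abs, sq_abs,
        hyw]
      ring
    rw [h1]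
    exact poly_deriv _ _ _
  have hz2 : HasDerivAt (fun t : ℝ => ‖z - t • w‖ ^ 2) (-(2 * (⟪y, z⟫_ℝ - ‖z‖ ^ 2))) 0 := by
    have h1 : (fun t : ℝ => ‖z - t • w‖ ^ 2) =
        fun t => ‖z‖ ^ 2 + (-(2 * (⟪y, z⟫_ℝ - ‖z‖ ^ 2))) * t + ‖w‖ ^ 2 * t ^ 2 := by
      funext t
      rw [norm_sub_sq_real, real_inner_smul_right, norm_smul, mul_pow, Real.norm_eq_abs, sq_abs,
        hzw]
      ring
    rw [h1]
    exact poly_deriv _ _ _
  have e0 : y + (0 : ℝ) • w = y := by simp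
  have e1 : z - (0 : ℝ) • w = z := by simp
  have hel : HasDerivAt (fun t : ℝ => el r (y + t • w)) ((‖y‖ ^ 2 - ⟪y, z⟫_ℝ) / el r y) 0 := by
    have h1 : HasDerivAt (fun t : ℝ => Real.sqrt (r ^ 2 + ‖y + t • w‖ ^ 2)) _ 0 :=
      (hy2.const_add (r ^ 2)).sqrt (by positivity)
    have h2 : 2 * (‖y‖ ^ 2 - ⟪y, z⟫_ℝ) / (2 * Real.sqrt (r ^ 2 + ‖y + (0 : ℝ) • w‖ ^ 2)) =
        (‖y‖ ^ 2 - ⟪y, z⟫_ℝ) / el r y := by
      rw [e0]
      unfold el
      rw [mul_div_mul_left _ _ (by norm_num)]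
    rw [h2] at h1
    exact h1
  have hT : HasDerivAt (fun t : ℝ => 1 + ⟪y + t • w, z - t • w⟫_ℝ / (R * el r (y + t • w)))
      (-(‖y‖ ^ 2 - 2 * ⟪y, z⟫_ℝ + ‖z‖ ^ 2) / (R * el r y) -
      ⟪y, z⟫_ℝ * ((‖y‖ ^ 2 - ⟪y, z⟫_ℝ) / el r y) / (R * el r y ^ 2)) 0 := by
    have h1 := (hs.div (hel.const_mul R) (by rw [e0]; positivity)).const_add 1
    refine h1.congr_deriv ?_
    simp only [e0, e1]
    field_simp
  have hcu : HasDerivAt (fun t : ℝ => cu R (z - t • w) ^ 2)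
      (2 * cu R z * (2 * (⟪y, z⟫_ℝ - ‖z‖ ^ 2) / R ^ 2)) 0 := by
    have h1 : HasDerivAt (fun t : ℝ => 1 - ‖z - t • w‖ ^ 2 / R ^ 2)
        (2 * (⟪y, z⟫_ℝ - ‖z‖ ^ 2) / R ^ 2) 0 := by
      refine ((hz2.div_const (R ^ 2)).const_sub 1).congr_deriv ?_
      ring
    have h2 := HasDerivAt.comp (0 : ℝ) (hd_sq (1 - ‖z - (0 : ℝ) • w‖ ^ 2 / R ^ 2)) h1
    rw [e1] at h2
    exact h2
  have hall := ((hT.mul hcu).div hel (by rw [e0]; exact hl.ne'))
  refine hall.congr_deriv ?_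
  simp only [e0, e1, Pi.mul_apply]
  unfold dph
  field_simp

theorem ph_cd {R r : ℝ} (hR : 0 < R) (hr : 0 < r) {F : Type*} [NormedAddCommGroup F]
    [NormedSpace ℝ F] (P Q : F → W) (hP : ContDiff ℝ 1 P) (hQ : ContDiff ℝ 1 Q) :
    ContDiff ℝ 1 fun x => ph R r (P x) (Q x) := by
  have hel : ContDiff ℝ 1 fun x => el r (P x) := by
    unfold el
    refine ContDiff.sqrt (contDiff_const.add (hP.norm_sq ℝ)) fun x => ?_
    positivity
  have hne : ∀ x, el r (P x) ≠ 0 := fun x => (el_pos hr _).ne'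
  have hcu : ContDiff ℝ 1 fun x => cu R (Q x) ^ 2 := by
    unfold cu
    exact cd_sq.comp (contDiff_const.sub ((hQ.norm_sq ℝ).div_const _))
  unfold ph
  refine ((contDiff_const.add ((hP.inner ℝ hQ).div (contDiff_const.mul hel) fun x => ?_)).mul
    hcu).div hel hne
  exact mul_ne_zero hR.ne' (hne x)

end Pool.Agent.TH594.KP.Coef
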