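import Pool.Agent.H59.L.S8.H888R2.KT.Defs

/-!
# KLS for systems of indistinguishable particles: definitions

`V κ` is `ℝ^κ`.  `GD G ρ`: log-concave density invariant under the isometries in `G`.
-/

set_option autoImplicit false

namespace Pool.Agent.TH594.KP

open MeasureTheory Set
open scoped ENNReal InnerProductSpace
open Pool.Agent.H212R2.KLS (mu Bdd)
open Pool.Agent.H888R2.KT (LC St zz gs gc pst hs tw)

/-- `ℝ^κ` -/
abbrev V (κ : Type) : Type := EuclideanSpace ℝ κ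

/-- log-concave density invariant under the isometries in `G` -/
structure GD {κ : Type} [Fintype κ] (G : Set (V κ ≃ₗᵢ[ℝ] V κ)) (ρ : V κ → ℝ) : Prop where
  nonneg : ∀ x, 0 ≤ ρ x
  meas : Measurable ρ
  logc : ∀ x y : V κ, ∀ t : ℝ, 0 < t → t < 1 → ρ x ^ (1 - t) * ρ y ^ t ≤ ρ ((1 - t) • x + t • y)
  inv : ∀ g ∈ G, ∀ x, ρ (g x) = ρ x

/-- divergence of a vector field -/
noncomputable def dv {κ : Type} [Fintype κ] (w : V κ → V κ) (x : V κ) : ℝ :=
  LinearMap.trace ℝ (V κ) (fderiv ℝ w x : V κ →ₗ[ℝ] V κ)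

end Pool.Agent.TH594.KP
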