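import Pool.Agent.H59.L.S8.TH594.KP.Defs
import Pool.Agent.H59.L.S8.H888R2.KT.N2

/-!
# Odd functions with respect to an isometric involution

Let `T` be an isometric involution of `ℝ^κ`, `ρ` a `T`-invariant log-concave density such that
`‖x - T x‖ ≤ 2 r` on the support.  Then `∫ f² dμ ≤ 2 r² ∫ ‖∇f‖² dμ` for every `f` with `f ∘ T = -f`.
-/

set_option autoImplicit false

namespace Pool.Agent.TH594.KP

open MeasureTheory Set Filter
open scoped ENNReal InnerProductSpace Topology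
open Pool.Agent.H212R2.KLS (mu Bdd)
open Pool.Agent.H888R2.KT (LC)

section ball

variable {F : Type*} [NormedAddCommGroup F] [InnerProductSpace ℝ F] [FiniteDimensional ℝ F]
  [MeasurableSpace F] [BorelSpace F]

theorem mid_sqF {ρ : F → ℝ} (h0 : ∀ x, 0 ≤ ρ x)
    (hlc : ∀ x y : F, ∀ t : ℝ, 0 < t → t < 1 →
      ρ x ^ (1 - t) * ρ y ^ t ≤ ρ ((1 - t) • x + t • y)) (x y : F) :
    ρ x * ρ y ≤ (ρ ((1 / 2 : ℝ) • (x + y))) ^ 2 := by
  have h1 := hlc x y (1 / 2) (by norm_num) (by norm_num)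
  have e1 : (1 - 1 / 2 : ℝ) = 1 / 2 := by norm_num
  rw [e1, ← smul_add] at h1
  have h2 : ρ x * ρ y = (ρ x ^ (1 / 2 : ℝ) * ρ y ^ (1 / 2 : ℝ)) ^ 2 := by
    rw [mul_pow, ← Real.sqrt_eq_rpow, ← Real.sqrt_eq_rpow, Real.sq_sqrt (h0 x), Real.sq_sqrt (h0 y)]
  rw [h2]
  exact pow_le_pow_left₀ (mul_nonneg (Real.rpow_nonneg (h0 x) _) (Real.rpow_nonneg (h0 y) _)) h1 2

theorem ballF {ρ : F → ℝ} (h0 : ∀ x, 0 ≤ ρ x) (hm : Measurable ρ)
    (hlc : ∀ x y : F, ∀ t : ℝ, 0 < t → t < 1 →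
      ρ x ^ (1 - t) * ρ y ^ t ≤ ρ ((1 - t) • x + t • y)) (hB : ∃ B, ∀ x, ρ x ≤ B)
    (R : ℝ) (hR : 0 < R) (hs : ∀ x, R < ‖x‖ → ρ x = 0) (f : F → ℝ) (hf : ContDiff ℝ 1 f) :
    ∃ c : ℝ, ∫ x, (f x - c) ^ 2 * ρ x ≤ 2 * R ^ 2 * ∫ x, ‖fderiv ℝ f x‖ ^ 2 * ρ x := by
  obtain ⟨B, hB⟩ := hB
  obtain ⟨w, hw⟩ : ∃ w : F → ℝ,
      ∀ x, w x = ρ x * Real.exp (-(‖x‖ ^ 2 / (2 * R ^ 2))) := ⟨_, fun _ => rfl⟩
  have hR2 : 0 < R ^ 2 := by positivity
  have hw0 : ∀ x, 0 ≤ w x := fun x => by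
    rw [hw]; exact mul_nonneg (h0 x) (Real.exp_pos _).le
  have hexp1 : ∀ x : F, Real.exp (-(‖x‖ ^ 2 / (2 * R ^ 2))) ≤ 1 := fun x => by
    rw [Real.exp_le_one_iff]
    have : 0 ≤ ‖x‖ ^ 2 / (2 * R ^ 2) := by positivity
    linarith
  have hwρ : ∀ x, w x ≤ ρ x := fun x => by
    rw [hw]
    exact mul_le_of_le_one_right (h0 x) (hexp1 x)
  have hwm : Measurable w := by
    have : w = fun x => ρ x * Real.exp (-(‖x‖ ^ 2 / (2 * R ^ 2))) := funext hw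
    rw [this]
    exact hm.mul (by fun_prop)
  have hwz : ∀ x, R < ‖x‖ → w x = 0 := fun x hx => by rw [hw, hs x hx, zero_mul]
  have hρw : ∀ x, ρ x ≤ 2 * w x := by
    intro x
    by_cases hx : R < ‖x‖
    · rw [hs x hx, hwz x hx]; norm_num
    · push Not at hx
      rw [hw]
      have h1 : ‖x‖ ^ 2 / (2 * R ^ 2) ≤ 1 / 2 := by
        rw [div_le_iff₀ (by positivity)]
        have : ‖x‖ ^ 2 ≤ R ^ 2 := pow_le_pow_left₀ (norm_nonneg x) hx 2
        linarith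
      have h2 : (1 / 2 : ℝ) ≤ Real.exp (-(‖x‖ ^ 2 / (2 * R ^ 2))) := by
        have h3 := Real.add_one_le_exp (-(‖x‖ ^ 2 / (2 * R ^ 2)))
        linarith
      have h4 := h0 x
      nlinarith
  obtain ⟨c, hc⟩ := Pool.Agent.H212R2.KLS.poincare_of_strong (volume : Measure F)
    w hw0 hwm ⟨B, fun x => (hwρ x).trans (hB x)⟩ ⟨R, hwz⟩ (R ^ 2)⁻¹ (by positivity) (by
      intro x y
      rw [hw x, hw y, hw]
      have h1 := mid_sqF h0 hlc x y
      have h2 : Real.exp (-(‖x‖ ^ 2 / (2 * R ^ 2))) * Real.exp (-(‖y‖ ^ 2 / (2 * R ^ 2))) =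
          Real.exp (-(‖(1 / 2 : ℝ) • (x + y)‖ ^ 2 / (2 * R ^ 2))) ^ 2 *
          Real.exp (-((R ^ 2)⁻¹ / 4 * ‖x - y‖ ^ 2)) := by
        rw [← Real.exp_nat_mul, ← Real.exp_add, ← Real.exp_add]
        congr 1
        have h3 : ‖(1 / 2 : ℝ) • (x + y)‖ ^ 2 = (‖x‖ ^ 2 + ‖y‖ ^ 2) / 2 - ‖x - y‖ ^ 2 / 4 := by
          rw [norm_smul, mul_pow, Real.norm_eq_abs, sq_abs]
          have h4 := parallelogram_law_with_norm ℝ x y
          nlinarith
        rw [h3]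
        push_cast
        field_simp
        ring
      calc ρ x * Real.exp (-(‖x‖ ^ 2 / (2 * R ^ 2))) * (ρ y * Real.exp (-(‖y‖ ^ 2 / (2 * R ^ 2))))
          = (ρ x * ρ y) * (Real.exp (-(‖x‖ ^ 2 / (2 * R ^ 2))) *
              Real.exp (-(‖y‖ ^ 2 / (2 * R ^ 2)))) := by ring
        _ ≤ (ρ ((1 / 2 : ℝ) • (x + y))) ^ 2 * (Real.exp (-(‖x‖ ^ 2 / (2 * R ^ 2))) *
              Real.exp (-(‖y‖ ^ 2 / (2 * R ^ 2)))) := mul_le_mul_of_nonneg_right h1 (by positivity)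
        _ = _ := by rw [h2]; ring) f hf
  refine ⟨c, ?_⟩
  rw [inv_inv] at hc
  have hfd : Continuous (fderiv ℝ f) := hf.continuous_fderiv (by norm_num)
  have Iw : ∀ {φ : F → ℝ}, Continuous φ → Integrable (fun x => φ x * w x) :=
    fun hφ => Pool.Agent.H212R2.KLS.R4aux.intg hwm hw0 ⟨B, fun x => (hwρ x).trans (hB x)⟩ hwz hφ
  have Iρ : ∀ {φ : F → ℝ}, Continuous φ → Integrable (fun x => φ x * ρ x) :=
    fun hφ => Pool.Agent.H212R2.KLS.R4aux.intg hm h0 ⟨B, hB⟩ hs hφ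
  have c1 : Continuous fun x => (f x - c) ^ 2 := (hf.continuous.sub continuous_const).pow 2
  have c2 : Continuous fun x => ‖fderiv ℝ f x‖ ^ 2 := hfd.norm.pow 2
  calc ∫ x, (f x - c) ^ 2 * ρ x ≤ ∫ x, 2 * ((f x - c) ^ 2 * w x) := by
        refine integral_mono (Iρ c1) ((Iw c1).const_mul 2) fun x => ?_
        have h1 := hρw x
        have h2 : 0 ≤ (f x - c) ^ 2 := sq_nonneg _
        simp only
        nlinarith
    _ = 2 * ∫ x, (f x - c) ^ 2 * w x := integral_const_mul _ _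
    _ ≤ 2 * (R ^ 2 * ∫ x, ‖fderiv ℝ f x‖ ^ 2 * w x) := by linarith
    _ ≤ 2 * (R ^ 2 * ∫ x, ‖fderiv ℝ f x‖ ^ 2 * ρ x) := by
        have h3 : ∫ x, ‖fderiv ℝ f x‖ ^ 2 * w x ≤ ∫ x, ‖fderiv ℝ f x‖ ^ 2 * ρ x :=
          integral_mono (Iw c2) (Iρ c2) fun x => mul_le_mul_of_nonneg_left (hwρ x) (sq_nonneg _)
        have h4 := mul_le_mul_of_nonneg_left h3 hR2.le
        linarith
    _ = _ := by ring

/-- even density, odd function -/
theorem ballF_odd {ρ : F → ℝ} (h0 : ∀ x, 0 ≤ ρ x) (hm : Measurable ρ)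
    (hlc : ∀ x y : F, ∀ t : ℝ, 0 < t → t < 1 →
      ρ x ^ (1 - t) * ρ y ^ t ≤ ρ ((1 - t) • x + t • y)) (hB : ∃ B, ∀ x, ρ x ≤ B)
    (R : ℝ) (hR : 0 < R) (hs : ∀ x, R < ‖x‖ → ρ x = 0) (he : ∀ x, ρ (-x) = ρ x)
    (f : F → ℝ) (hf : ContDiff ℝ 1 f) (ho : ∀ x, f (-x) = - f x) :
    ∫ x, f x ^ 2 * ρ x ≤ 2 * R ^ 2 * ∫ x, ‖fderiv ℝ f x‖ ^ 2 * ρ x := by
  obtain ⟨c, hc⟩ := ballF h0 hm hlc hB R hR hs f hf
  have Iρ : ∀ {φ : F → ℝ}, Continuous φ → Integrable (fun x => φ x * ρ x) :=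
    fun hφ => Pool.Agent.H212R2.KLS.R4aux.intg hm h0 hB hs hφ
  have h1 : ∫ x, f x * ρ x = 0 := by
    have h2 := integral_neg_eq_self (fun x => f x * ρ x) (volume : Measure F)
    simp only [ho, he, neg_mul] at h2
    rw [integral_neg] at h2
    linarith
  have i1 : Integrable fun x => f x ^ 2 * ρ x := Iρ (hf.continuous.pow 2)
  have i2 : Integrable fun x => f x * ρ x := Iρ hf.continuous
  have i3 : Integrable fun x => (1 : ℝ) * ρ x := Iρ continuous_const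
  have h3 : ∫ x, (f x - c) ^ 2 * ρ x = (∫ x, f x ^ 2 * ρ x) + c ^ 2 * ∫ x, (1 : ℝ) * ρ x := by
    have h4 : ∀ x, (f x - c) ^ 2 * ρ x =
        (f x ^ 2 * ρ x + (-(2 * c)) * (f x * ρ x)) + c ^ 2 * (1 * ρ x) := fun x => by ring
    simp_rw [h4]
    have i4 : Integrable fun x => (-(2 * c)) * (f x * ρ x) := i2.const_mul _
    have i5 : Integrable fun x => f x ^ 2 * ρ x + (-(2 * c)) * (f x * ρ x) := i1.add i4
    have i6 : Integrable fun x => c ^ 2 * ((1 : ℝ) * ρ x) := i3.const_mul _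
    rw [integral_add i5 i6, integral_add i1 i4, integral_const_mul, integral_const_mul, h1]
    ring
  have h5 : 0 ≤ c ^ 2 * ∫ x, (1 : ℝ) * ρ x :=
    mul_nonneg (sq_nonneg _) (integral_nonneg fun x => by
      show 0 ≤ 1 * ρ x
      rw [one_mul]
      exact h0 x)
  linarith

end ball

section fib

variable {κ : Type} [Fintype κ]

/-- the inequality on a fibre -/
theorem fibre {F : Type*} [NormedAddCommGroup F] [InnerProductSpace ℝ F] [FiniteDimensional ℝ F]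
    [MeasurableSpace F] [BorelSpace F] {ρ : V κ → ℝ} (h0 : ∀ x, 0 ≤ ρ x) (hm : Measurable ρ)
    (hlc : ∀ x y : V κ, ∀ t : ℝ, 0 < t → t < 1 →
      ρ x ^ (1 - t) * ρ y ^ t ≤ ρ ((1 - t) • x + t • y)) (hB : ∃ B, ∀ x, ρ x ≤ B)
    (T : V κ ≃ₗᵢ[ℝ] V κ) (hT : ∀ x, ρ (T x) = ρ x)
    (r : ℝ) (hr : 0 < r) (hsupp : ∀ x, ρ x ≠ 0 → ‖x - T x‖ ≤ 2 * r)
    (f : V κ → ℝ) (hf : ContDiff ℝ 1 f) (hodd : ∀ x, f (T x) = - f x)
    (i : F →ₗᵢ[ℝ] V κ) (w : V κ) (hTu : ∀ u, T (i u + w) = i (-u) + w) :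
    ∫ u, f (i u + w) ^ 2 * ρ (i u + w) ≤
      2 * r ^ 2 * ∫ u, ‖fderiv ℝ f (i u + w)‖ ^ 2 * ρ (i u + w) := by
  obtain ⟨B, hB⟩ := hB
  have hfd : Continuous (fderiv ℝ f) := hf.continuous_fderiv (by norm_num)
  have hgd : ContDiff ℝ 1 fun u : F => f (i u + w) :=
    hf.comp (i.contDiff.add contDiff_const)
  have hb0 : ∀ u : F, 0 ≤ ρ (i u + w) := fun u => h0 _
  have hbm : Measurable fun u : F => ρ (i u + w) :=
    hm.comp ((i.continuous.measurable).add_const _)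
  have hs : ∀ u : F, r < ‖u‖ → ρ (i u + w) = 0 := by
    intro u hu
    by_contra hc
    have h1 := hsupp _ hc
    rw [hTu] at h1
    have h2 : i u + w - (i (-u) + w) = (2 : ℝ) • i u := by
      rw [map_neg]
      module
    rw [h2, norm_smul, Real.norm_of_nonneg (by norm_num : (0 : ℝ) ≤ 2), i.norm_map] at h1
    linarith
  have key := ballF_odd (F := F) (ρ := fun u : F => ρ (i u + w)) hb0 hbm (by
      intro x y t ht0 ht1
      have h1 := hlc (i x + w) (i y + w) t ht0 ht1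
      have h2 : (1 - t) • (i x + w) + t • (i y + w) = i ((1 - t) • x + t • y) + w := by
        rw [map_add, map_smul, map_smul]
        module
      rw [h2] at h1
      exact h1) ⟨B, fun u => hB _⟩ r hr hs (by
      intro u
      have h1 := hT (i u + w)
      rw [hTu] at h1
      exact h1) (fun u : F => f (i u + w)) hgd (by
      intro u
      have h1 := hodd (i u + w)
      rw [hTu] at h1
      exact h1)
  refine key.trans (mul_le_mul_of_nonneg_left ?_ (by positivity))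
  have hder : ∀ u : F, ‖fderiv ℝ (fun u : F => f (i u + w)) u‖ ≤ ‖fderiv ℝ f (i u + w)‖ := by
    intro u
    have h1 : HasFDerivAt (fun u : F => i u + w) i.toContinuousLinearMap u :=
      i.toContinuousLinearMap.hasFDerivAt.add_const _
    have h2 : HasFDerivAt f (fderiv ℝ f (i u + w)) (i u + w) :=
      (hf.differentiable (by norm_num) _).hasFDerivAt
    have h3 := (h2.comp u h1).fderiv
    have h4 : fderiv ℝ (fun u : F => f (i u + w)) u =
      (fderiv ℝ f (i u + w)).comp i.toContinuousLinearMap := h3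
    rw [h4]
    refine (ContinuousLinearMap.opNorm_comp_le _ _).trans ?_
    calc ‖fderiv ℝ f (i u + w)‖ * ‖i.toContinuousLinearMap‖ ≤
          ‖fderiv ℝ f (i u + w)‖ * 1 :=
          mul_le_mul_of_nonneg_left i.norm_toContinuousLinearMap_le (norm_nonneg _)
      _ = _ := mul_one _
  have IK : ∀ {φ : F → ℝ}, Continuous φ → Integrable (fun u : F => φ u * ρ (i u + w)) :=
    fun hφ => Pool.Agent.H212R2.KLS.R4aux.intg hbm hb0 ⟨B, fun u => hB _⟩ hs hφ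
  have hcw : Continuous fun u : F => i u + w := i.continuous.add continuous_const
  have c0 : Continuous fun u : F => fderiv ℝ (fun u : F => f (i u + w)) u :=
    hgd.continuous_fderiv (by norm_num)
  have c0' : Continuous fun u : F => fderiv ℝ f (i u + w) := hfd.comp hcw
  have c1 : Continuous fun u : F => ‖fderiv ℝ (fun u : F => f (i u + w)) u‖ ^ 2 := c0.norm.pow 2
  have c2 : Continuous fun u : F => ‖fderiv ℝ f (i u + w)‖ ^ 2 := c0'.norm.pow 2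
  refine integral_mono (IK c1) (IK c2) fun u => ?_
  exact mul_le_mul_of_nonneg_right (pow_le_pow_left₀ (norm_nonneg _) (hder u) 2) (h0 _)

theorem odd_poincare {ρ : V κ → ℝ} (h0 : ∀ x, 0 ≤ ρ x) (hm : Measurable ρ)
    (hlc : ∀ x y : V κ, ∀ t : ℝ, 0 < t → t < 1 →
      ρ x ^ (1 - t) * ρ y ^ t ≤ ρ ((1 - t) • x + t • y)) (hB : ∃ B, ∀ x, ρ x ≤ B)
    (hbd : Bdd ρ) (T : V κ ≃ₗᵢ[ℝ] V κ) (hTT : ∀ x, T (T x) = x) (hT : ∀ x, ρ (T x) = ρ x)
    (r : ℝ) (hr : 0 < r) (hsupp : ∀ x, ρ x ≠ 0 → ‖x - T x‖ ≤ 2 * r)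
    (f : V κ → ℝ) (hf : ContDiff ℝ 1 f) (hodd : ∀ x, f (T x) = - f x) :
    ∫ x, f x ^ 2 * ρ x ≤ 2 * r ^ 2 * ∫ x, ‖fderiv ℝ f x‖ ^ 2 * ρ x := by
  obtain ⟨B, hB⟩ := hB
  obtain ⟨R0, hR0⟩ := hbd
  obtain ⟨K, hK⟩ : ∃ K : Submodule ℝ (V κ), ∀ x, x ∈ K ↔ T x = -x := by
    refine ⟨LinearMap.ker ((T.toLinearEquiv : V κ →ₗ[ℝ] V κ) + LinearMap.id), fun x => ?_⟩
    rw [LinearMap.mem_ker]
    show T x + x = 0 ↔ T x = -x
    exact add_eq_zero_iff_eq_neg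
  have hKo : ∀ w ∈ Kᗮ, T w = w := by
    intro w hw
    have h1 : w - T w ∈ K := by
      rw [hK, map_sub, hTT]
      abel
    have h2 : ⟪w - T w, w⟫_ℝ = 0 := (Submodule.mem_orthogonal K w).1 hw _ h1
    have h3 : ‖T w‖ = ‖w‖ := T.norm_map w
    have h4 : ‖w - T w‖ ^ 2 = 0 := by
      rw [inner_sub_left, real_inner_self_eq_norm_sq] at h2
      rw [norm_sub_sq_real, h3, real_inner_comm]
      linarith
    have h5 : w - T w = 0 := by
      have : ‖w - T w‖ = 0 := by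
        rwa [sq_eq_zero_iff] at h4
      exact norm_eq_zero.1 this
    exact (sub_eq_zero.1 h5).symm
  -- Fubini
  obtain ⟨M, hM, hMs⟩ : ∃ M : V κ ≃ᵐ K × Kᗮ, MeasurePreserving M ∧
      ∀ u w, M.symm (u, w) = (u : V κ) + (w : V κ) := by
    refine ⟨K.orthogonalDecomposition.toHomeomorph.toMeasurableEquiv.trans
      (MeasurableEquiv.toLp 2 _).symm,
      K.orthogonalDecomposition.measurePreserving.trans (WithLp.volume_preserving_ofLp _ _), ?_⟩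
    intro u w
    rfl
  have fub : ∀ g : V κ → ℝ, Integrable g →
      Integrable (fun w : Kᗮ => ∫ u : K, g ((u : V κ) + (w : V κ))) ∧
      ∫ x, g x = ∫ w : Kᗮ, ∫ u : K, g ((u : V κ) + (w : V κ)) := by
    intro g hg
    have h1 := hM.symm.integral_comp M.symm.measurableEmbedding g
    have h2 : Integrable (fun z : K × Kᗮ => g (M.symm z)) :=
      (hM.symm.integrable_comp_emb M.symm.measurableEmbedding).2 hg
    have h3 : Integrable (fun z : K × Kᗮ => g (M.symm z))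
        ((volume : Measure K).prod (volume : Measure Kᗮ)) := h2
    constructor
    · have h4 := h3.integral_prod_right
      simpa only [hMs] using h4
    · rw [← h1]
      have h4 : ∫ z : K × Kᗮ, g (M.symm z) =
          ∫ z, g (M.symm z) ∂((volume : Measure K).prod (volume : Measure Kᗮ)) := rfl
      rw [h4, integral_prod_symm _ h3]
      simp only [hMs]
  have hfd : Continuous (fderiv ℝ f) := hf.continuous_fderiv (by norm_num)
  have Iρ : ∀ {φ : V κ → ℝ}, Continuous φ → Integrable (fun x => φ x * ρ x) :=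
    fun hφ => Pool.Agent.H212R2.KLS.R4aux.intg hm h0 ⟨B, hB⟩ hR0 hφ
  obtain ⟨j1, e1⟩ := fub (fun x => f x ^ 2 * ρ x) (Iρ (hf.continuous.pow 2))
  obtain ⟨j2, e2⟩ := fub (fun x => ‖fderiv ℝ f x‖ ^ 2 * ρ x) (Iρ (hfd.norm.pow 2))
  rw [e1, e2, ← integral_const_mul]
  refine integral_mono j1 (j2.const_mul _) fun w => ?_
  have hTw : T (w : V κ) = w := hKo _ w.2
  have hTu : ∀ u : K, T ((u : V κ) + (w : V κ)) = ((-u : K) : V κ) + (w : V κ) := by
    intro u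
    rw [map_add, hTw, (hK _).1 u.2]
    rfl
  exact fibre h0 hm hlc ⟨B, hB⟩ T hT r hr hsupp f hf hodd K.subtypeₗᵢ (w : V κ) hTu

end fib

end Pool.Agent.TH594.KP
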