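import Pool.Agent.H59.L.S8.TH594.KP.Core
import Pool.Agent.H59.L.S8.H888R2.KB.N1
import Pool.Agent.H59.L.S8.H212R2.KLS.G2

/-!
# From bounded support and second moments to all densities and the covariance

Adapted from `W276.SX.MainB`, `W668.SX.MainC` and `W376.SX.Cent` of the starting files.
-/

set_option autoImplicit false

namespace Pool.Agent.TH594.KP

open MeasureTheory Set Filter
open scoped ENNReal InnerProductSpace Topology
open Pool.Agent.H212R2.KLS (mu Bdd)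
open Pool.Agent.H888R2.KT (LC)
open Pool.Agent.H888R2.KB (nash_lip)

section main

variable {κ : Type} [Fintype κ] {G : Set (V κ ≃ₗᵢ[ℝ] V κ)}

/-- Lipschitz functions, densities of bounded support, second moments, constant `C` -/
def SC (G : Set (V κ ≃ₗᵢ[ℝ] V κ)) (C : ℝ) : Prop :=
  ∀ ρ : V κ → ℝ, GD G ρ → Bdd ρ → mu ρ univ = 1 → ∀ s : ℝ, 0 < s →
    (∀ θ : V κ, ∫ x, ⟪θ, x⟫_ℝ ^ 2 ∂(mu ρ) ≤ s * ‖θ‖ ^ 2) →
    ∀ f : V κ → ℝ, ContDiff ℝ 1 f → (∀ x, ‖fderiv ℝ f x‖ ≤ 1) →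
    ∫ x, f x ^ 2 ∂(mu ρ) - (∫ x, f x ∂(mu ρ)) ^ 2 ≤ C * s

/-- second moments bound the norm -/
theorem norm_memLp (μ : Measure (V κ)) [IsFiniteMeasure μ]
    (s : ℝ) (hmom : ∀ θ : V κ,
      ∫⁻ x, ENNReal.ofReal (⟪θ, x⟫_ℝ ^ 2) ∂μ ≤ ENNReal.ofReal (s * ‖θ‖ ^ 2)) :
    MemLp (fun x : V κ => ‖x‖) 2 μ := by
  classical
  rw [memLp_two_iff_integrable_sq (by fun_prop)]
  have h1 : ∀ x : V κ, ‖x‖ ^ 2 =
      ∑ p : κ, ⟪EuclideanSpace.single p (1 : ℝ), x⟫_ℝ ^ 2 := by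
    intro x
    rw [EuclideanSpace.norm_sq_eq]
    apply Finset.sum_congr rfl
    intro p _
    rw [EuclideanSpace.inner_single_left]
    simp
  simp_rw [h1]
  apply integrable_finsetSum
  intro p _
  refine ⟨by fun_prop, ?_⟩
  rw [hasFiniteIntegral_iff_ofReal (Eventually.of_forall fun x => sq_nonneg _)]
  exact lt_of_le_of_lt (hmom _) ENNReal.ofReal_lt_top

theorem lip {F : Type} [NormedAddCommGroup F] [InnerProductSpace ℝ F] (f : F → ℝ)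
    (hf : ContDiff ℝ 1 f) (hf1 : ∀ x, ‖fderiv ℝ f x‖ ≤ 1) (x : F) : |f x| ≤ |f 0| + ‖x‖ := by
  have h := Convex.norm_image_sub_le_of_norm_fderiv_le (𝕜 := ℝ) (s := univ) (x := 0) (y := x) (f := f)
    (C := 1) (fun y _ => (hf.differentiable (by norm_num)) y) (fun y _ => hf1 y) convex_univ
    (mem_univ _) (mem_univ _)
  rw [sub_zero, one_mul, Real.norm_eq_abs] at h
  have h2 : |f x| ≤ |f x - f 0| + |f 0| := by
    have := abs_add_le (f x - f 0) (f 0)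
    simpa using this
  linarith

theorem mainb {C : ℝ} (_hC : 0 < C) (hcore : SC G C) (ρ : V κ → ℝ) (hρ : GD G ρ)
    (h1 : mu ρ univ = 1) (s : ℝ) (hs : 0 < s)
    (hmom : ∀ θ : V κ, ∫⁻ x, ENNReal.ofReal (⟪θ, x⟫_ℝ ^ 2) ∂(mu ρ) ≤
      ENNReal.ofReal (s * ‖θ‖ ^ 2)) (f : V κ → ℝ) (hf : ContDiff ℝ 1 f)
    (hfd : ∀ x, ‖fderiv ℝ f x‖ ≤ 1) :
    MemLp f 2 (mu ρ) ∧ ∫ x, (f x - ∫ y, f y ∂(mu ρ)) ^ 2 ∂(mu ρ) ≤ C * s := by
  have hprob : IsProbabilityMeasure (mu ρ) := ⟨h1⟩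
  have hfL : MemLp f 2 (mu ρ) := by
    have h2 := (memLp_const (μ := mu ρ) (p := 2) (|f 0|)).add (norm_memLp (mu ρ) s hmom)
    refine h2.mono hf.continuous.aestronglyMeasurable (Eventually.of_forall fun x => ?_)
    have h3 := lip f hf hfd x
    show ‖f x‖ ≤ ‖|f 0| + ‖x‖‖
    rw [Real.norm_eq_abs (f x), Real.norm_of_nonneg (by positivity : 0 ≤ |f 0| + ‖x‖)]
    exact h3
  refine ⟨hfL, ?_⟩
  have hf2 : Integrable (fun x => f x ^ 2) (mu ρ) := hfL.integrable_sq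
  have hf1 : Integrable f (mu ρ) := hfL.integrable (by norm_num)
  have key : ∀ᶠ k : ℕ in atTop,
      ((mu ρ).real {x : V κ | ‖x‖ ≤ k})⁻¹ *
        (∫ x in {x : V κ | ‖x‖ ≤ k}, f x ^ 2 ∂(mu ρ)) -
        (((mu ρ).real {x : V κ | ‖x‖ ≤ k})⁻¹ *
          ∫ x in {x : V κ | ‖x‖ ≤ k}, f x ∂(mu ρ)) ^ 2 ≤
      C * (s * ((mu ρ).real {x : V κ | ‖x‖ ≤ k})⁻¹) := by
    have hev : ∀ᶠ k : ℕ in atTop, 0 < (mu ρ).real {x : V κ | ‖x‖ ≤ k} :=
      (Pool.Agent.H212R2.KLS.g2_mass (mu ρ)).eventually (lt_mem_nhds one_pos)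
    filter_upwards [hev] with k hk
    obtain ⟨B, hBdef⟩ : ∃ B : Set (V κ), B = {x | ‖x‖ ≤ k} := ⟨_, rfl⟩
    have hBm : MeasurableSet B := by
      rw [hBdef]
      exact measurableSet_le measurable_norm measurable_const
    rw [← hBdef] at hk ⊢
    obtain ⟨M, hM⟩ : ∃ M : ℝ, M = (mu ρ).real B := ⟨_, rfl⟩
    rw [← hM] at hk ⊢
    have hMi : 0 ≤ M⁻¹ := (inv_pos.2 hk).le
    have hd : GD G (fun x => M⁻¹ * B.indicator ρ x) := by
      have hb1 : GD G (B.indicator ρ) := by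
        rw [hBdef]
        exact gd_ball hρ k
      exact gd_smul hb1 _ hMi
    have hb : Bdd (fun x => M⁻¹ * B.indicator ρ x) := by
      refine ⟨k, fun x hx => ?_⟩
      show M⁻¹ * B.indicator ρ x = 0
      rw [indicator_of_notMem, mul_zero]
      rw [hBdef]
      exact not_le.2 hx
    have hmu := Pool.Agent.H212R2.KLS.g2_mu ρ hρ.nonneg hρ.meas B hBm M⁻¹ hMi
    have hmass : mu (fun x => M⁻¹ * B.indicator ρ x) univ = 1 := by
      rw [hmu, Measure.smul_apply, Measure.restrict_apply_univ, smul_eq_mul]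
      have h2 : mu ρ B = ENNReal.ofReal M := by
        rw [hM, Measure.real, ENNReal.ofReal_toReal (measure_ne_top _ _)]
      rw [h2, ← ENNReal.ofReal_mul hMi, inv_mul_cancel₀ hk.ne', ENNReal.ofReal_one]
    have hint : ∀ g : V κ → ℝ,
        ∫ x, g x ∂(mu (fun x => M⁻¹ * B.indicator ρ x)) = M⁻¹ * ∫ x in B, g x ∂(mu ρ) := by
      intro g
      rw [hmu, integral_smul_measure, ENNReal.toReal_ofReal hMi, smul_eq_mul]
    -- a nonnegative function has a smaller integral over `B`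
    have hle : ∀ g : V κ → ℝ, Continuous g →
        (∀ x, 0 ≤ g x) → ∀ a : ℝ, 0 ≤ a →
        ∫⁻ x, ENNReal.ofReal (g x) ∂(mu ρ) ≤ ENNReal.ofReal a → ∫ x in B, g x ∂(mu ρ) ≤ a := by
      intro g hg hg0 a ha hga
      rw [integral_eq_lintegral_of_nonneg_ae (Eventually.of_forall hg0)
        hg.aestronglyMeasurable]
      apply ENNReal.toReal_le_of_le_ofReal ha
      exact le_trans (setLIntegral_le_lintegral _ _) hga
    have hmom' : ∀ θ : V κ,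
        ∫ x, ⟪θ, x⟫_ℝ ^ 2 ∂(mu (fun x => M⁻¹ * B.indicator ρ x)) ≤ (s * M⁻¹) * ‖θ‖ ^ 2 := by
      intro θ
      rw [hint]
      have h2 := hle (fun x => ⟪θ, x⟫_ℝ ^ 2) (by fun_prop) (fun x => sq_nonneg _) (s * ‖θ‖ ^ 2)
        (by positivity) (hmom θ)
      calc M⁻¹ * ∫ x in B, ⟪θ, x⟫_ℝ ^ 2 ∂(mu ρ) ≤ M⁻¹ * (s * ‖θ‖ ^ 2) :=
            mul_le_mul_of_nonneg_left h2 hMi
        _ = (s * M⁻¹) * ‖θ‖ ^ 2 := by ring
    have h3 := hcore _ hd hb hmass (s * M⁻¹) (mul_pos hs (inv_pos.2 hk)) hmom' f hf hfd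
    rw [hint, hint] at h3
    exact h3
  have hM1 : Tendsto (fun k : ℕ => ((mu ρ).real {x : V κ | ‖x‖ ≤ k})⁻¹) atTop (𝓝 1) := by
    have := (Pool.Agent.H212R2.KLS.g2_mass (mu ρ)).inv₀ one_ne_zero
    rwa [inv_one] at this
  have hL : Tendsto (fun k : ℕ =>
      ((mu ρ).real {x : V κ | ‖x‖ ≤ k})⁻¹ *
        (∫ x in {x : V κ | ‖x‖ ≤ k}, f x ^ 2 ∂(mu ρ)) -
        (((mu ρ).real {x : V κ | ‖x‖ ≤ k})⁻¹ *
          ∫ x in {x : V κ | ‖x‖ ≤ k}, f x ∂(mu ρ)) ^ 2)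
      atTop (𝓝 (1 * (∫ x, f x ^ 2 ∂(mu ρ)) - (1 * ∫ x, f x ∂(mu ρ)) ^ 2)) :=
    (hM1.mul (Pool.Agent.H212R2.KLS.g2_lim (mu ρ) _ hf2)).sub
      ((hM1.mul (Pool.Agent.H212R2.KLS.g2_lim (mu ρ) _ hf1)).pow 2)
  have hR : Tendsto (fun k : ℕ => C * (s * ((mu ρ).real {x : V κ | ‖x‖ ≤ k})⁻¹))
      atTop (𝓝 (C * (s * 1))) :=
    (hM1.const_mul s).const_mul C
  have hfin := le_of_tendsto_of_tendsto hL hR key
  have hvar : ∫ x, (f x - ∫ y, f y ∂(mu ρ)) ^ 2 ∂(mu ρ) =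
      ∫ x, f x ^ 2 ∂(mu ρ) - (∫ x, f x ∂(mu ρ)) ^ 2 := by
    obtain ⟨a, ha⟩ : ∃ a : ℝ, a = ∫ y, f y ∂(mu ρ) := ⟨_, rfl⟩
    rw [← ha]
    have h2 : ∀ x, (f x - a) ^ 2 = (f x ^ 2 - 2 * a * f x) + a ^ 2 := fun x => by ring
    simp_rw [h2]
    have h3 : Integrable (fun x => 2 * a * f x) (mu ρ) := hf1.const_mul _
    have h4 : Integrable (fun x => f x ^ 2 - 2 * a * f x) (mu ρ) := hf2.sub h3
    rw [integral_add h4 (integrable_const _), integral_sub hf2 h3, integral_const_mul, ← ha]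
    simp
    ring
  rw [hvar]
  simpa using hfin

theorem mainc {C : ℝ} (hC : 0 < C) (hcore : SC G C) (ρ : V κ → ℝ) (hρ : GD G ρ)
    (h1 : mu ρ univ = 1) (s : ℝ) (hs : 0 < s)
    (hmom : ∀ θ : V κ, ∫⁻ x, ENNReal.ofReal (⟪θ, x⟫_ℝ ^ 2) ∂(mu ρ) ≤
      ENNReal.ofReal (s * ‖θ‖ ^ 2)) (f : V κ → ℝ) (hf : ContDiff ℝ 1 f)
    (hfb : ∀ x, |f x| ≤ 1) :
    ENNReal.ofReal ((∫ x, (f x - ∫ y, f y ∂(mu ρ)) ^ 2 ∂(mu ρ)) ^ 2) ≤
      ENNReal.ofReal (8 * C * s) * ∫⁻ x, ENNReal.ofReal (‖fderiv ℝ f x‖ ^ 2) ∂(mu ρ) := by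
  have hprob : IsProbabilityMeasure (mu ρ) := ⟨h1⟩
  by_cases hI : ∫⁻ x, ENNReal.ofReal (‖fderiv ℝ f x‖ ^ 2) ∂(mu ρ) = ⊤
  · rw [hI, ENNReal.mul_top (by
      rw [Ne, ENNReal.ofReal_eq_zero, not_le]
      positivity)]
    exact le_top
  obtain ⟨I, hIdef⟩ : ∃ I : ℝ, I = (∫⁻ x, ENNReal.ofReal (‖fderiv ℝ f x‖ ^ 2) ∂(mu ρ)).toReal :=
    ⟨_, rfl⟩
  have hI0 : 0 ≤ I := by rw [hIdef]; exact ENNReal.toReal_nonneg
  have hgrad_meas : Continuous fun x => ‖fderiv ℝ f x‖ ^ 2 :=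
    ((hf.continuous_fderiv (by norm_num)).norm).pow 2
  have hfL : MemLp f 2 (mu ρ) :=
    MemLp.of_bound hf.continuous.aestronglyMeasurable 1 (Eventually.of_forall fun x => by
      rw [Real.norm_eq_abs]; exact hfb x)
  have hf2 : Integrable (fun x => f x ^ 2) (mu ρ) := hfL.integrable_sq
  have hf1 : Integrable f (mu ρ) := hfL.integrable (by norm_num)
  have key : ∀ᶠ k : ℕ in atTop,
      (((mu ρ).real {x : V κ | ‖x‖ ≤ k})⁻¹ *
        (∫ x in {x : V κ | ‖x‖ ≤ k}, f x ^ 2 ∂(mu ρ)) -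
        (((mu ρ).real {x : V κ | ‖x‖ ≤ k})⁻¹ *
          ∫ x in {x : V κ | ‖x‖ ≤ k}, f x ∂(mu ρ)) ^ 2) ^ 2 ≤
      8 * (C *
        (s * ((mu ρ).real {x : V κ | ‖x‖ ≤ k})⁻¹)) *
        (((mu ρ).real {x : V κ | ‖x‖ ≤ k})⁻¹ * I) := by
    have hev : ∀ᶠ k : ℕ in atTop,
        0 < (mu ρ).real {x : V κ | ‖x‖ ≤ k} :=
      (Pool.Agent.H212R2.KLS.g2_mass (mu ρ)).eventually (lt_mem_nhds one_pos)
    filter_upwards [hev] with k hk
    obtain ⟨B, hBdef⟩ : ∃ B : Set (V κ),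
      B = {x | ‖x‖ ≤ k} := ⟨_, rfl⟩
    have hBm : MeasurableSet B := by
      rw [hBdef]
      exact measurableSet_le measurable_norm measurable_const
    rw [← hBdef] at hk ⊢
    obtain ⟨M, hM⟩ : ∃ M : ℝ, M = (mu ρ).real B := ⟨_, rfl⟩
    rw [← hM] at hk ⊢
    have hMi : 0 ≤ M⁻¹ := (inv_pos.2 hk).le
    have hd : GD G (fun x => M⁻¹ * B.indicator ρ x) := by
      have hb1 : GD G (B.indicator ρ) := by
        rw [hBdef]
        exact gd_ball hρ k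
      exact gd_smul hb1 _ hMi
    have hb : Bdd (fun x => M⁻¹ * B.indicator ρ x) := by
      refine ⟨k, fun x hx => ?_⟩
      show M⁻¹ * B.indicator ρ x = 0
      rw [indicator_of_notMem, mul_zero]
      rw [hBdef]
      exact not_le.2 hx
    have hmu := Pool.Agent.H212R2.KLS.g2_mu ρ hρ.nonneg hρ.meas B hBm M⁻¹ hMi
    have hmass : mu (fun x => M⁻¹ * B.indicator ρ x) univ = 1 := by
      rw [hmu, Measure.smul_apply, Measure.restrict_apply_univ, smul_eq_mul]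
      have h2 : mu ρ B = ENNReal.ofReal M := by
        rw [hM, Measure.real, ENNReal.ofReal_toReal (measure_ne_top _ _)]
      rw [h2, ← ENNReal.ofReal_mul hMi, inv_mul_cancel₀ hk.ne', ENNReal.ofReal_one]
    have hlc : LC (fun x => M⁻¹ * B.indicator ρ x) :=
      ⟨hd.nonneg, hd.meas, hd.logc, hb, by rw [hmass]; exact ENNReal.one_ne_top, fun h => by
        rw [h] at hmass; simp at hmass⟩
    have hint : ∀ g : V κ → ℝ,
        ∫ x, g x ∂(mu (fun x => M⁻¹ * B.indicator ρ x)) = M⁻¹ * ∫ x in B, g x ∂(mu ρ) := by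
      intro g
      rw [hmu, integral_smul_measure, ENNReal.toReal_ofReal hMi, smul_eq_mul]
    -- a nonnegative function has a smaller integral over `B`
    have hle : ∀ g : V κ → ℝ, Continuous g →
        (∀ x, 0 ≤ g x) → ∀ a : ℝ, 0 ≤ a →
        ∫⁻ x, ENNReal.ofReal (g x) ∂(mu ρ) ≤ ENNReal.ofReal a → ∫ x in B, g x ∂(mu ρ) ≤ a := by
      intro g hg hg0 a ha hga
      rw [integral_eq_lintegral_of_nonneg_ae (Eventually.of_forall hg0)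
        hg.aestronglyMeasurable]
      apply ENNReal.toReal_le_of_le_ofReal ha
      exact le_trans (setLIntegral_le_lintegral _ _) hga
    have hmom' : ∀ θ : V κ,
        ∫ x, ⟪θ, x⟫_ℝ ^ 2 ∂(mu (fun x => M⁻¹ * B.indicator ρ x)) ≤ (s * M⁻¹) * ‖θ‖ ^ 2 := by
      intro θ
      rw [hint]
      have h2 := hle (fun x => ⟪θ, x⟫_ℝ ^ 2) (by fun_prop) (fun x => sq_nonneg _) (s * ‖θ‖ ^ 2)
        (by positivity) (hmom θ)
      calc M⁻¹ * ∫ x in B, ⟪θ, x⟫_ℝ ^ 2 ∂(mu ρ) ≤ M⁻¹ * (s * ‖θ‖ ^ 2) :=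
            mul_le_mul_of_nonneg_left h2 hMi
        _ = (s * M⁻¹) * ‖θ‖ ^ 2 := by ring
    have h3 := nash_lip hlc hmass (C * (s * M⁻¹)) (by
      have := inv_pos.2 hk
      positivity) (fun g hg hg1 => hcore _ hd hb hmass (s * M⁻¹)
        (mul_pos hs (inv_pos.2 hk)) hmom' g hg hg1) f hf hfb
    rw [hint, hint, hint] at h3
    refine h3.trans ?_
    have h4 : ∫ x in B, ‖fderiv ℝ f x‖ ^ 2 ∂(mu ρ) ≤ I := by
      apply hle _ hgrad_meas (fun x => sq_nonneg _) I hI0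
      rw [hIdef, ENNReal.ofReal_toReal hI]
    have h5 : 0 ≤ 8 * (C * (s * M⁻¹)) := by positivity
    exact mul_le_mul_of_nonneg_left (mul_le_mul_of_nonneg_left h4 hMi) h5
  have hM1 : Tendsto (fun k : ℕ =>
      ((mu ρ).real {x : V κ | ‖x‖ ≤ k})⁻¹)
      atTop (𝓝 1) := by
    have := (Pool.Agent.H212R2.KLS.g2_mass (mu ρ)).inv₀ one_ne_zero
    rwa [inv_one] at this
  have hL : Tendsto (fun k : ℕ =>
      (((mu ρ).real {x : V κ | ‖x‖ ≤ k})⁻¹ *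
        (∫ x in {x : V κ | ‖x‖ ≤ k}, f x ^ 2 ∂(mu ρ)) -
        (((mu ρ).real {x : V κ | ‖x‖ ≤ k})⁻¹ *
          ∫ x in {x : V κ | ‖x‖ ≤ k}, f x ∂(mu ρ)) ^ 2) ^ 2)
      atTop (𝓝 ((1 * (∫ x, f x ^ 2 ∂(mu ρ)) - (1 * ∫ x, f x ∂(mu ρ)) ^ 2) ^ 2)) :=
    ((hM1.mul (Pool.Agent.H212R2.KLS.g2_lim (mu ρ) _ hf2)).sub
      ((hM1.mul (Pool.Agent.H212R2.KLS.g2_lim (mu ρ) _ hf1)).pow 2)).pow 2
  have hR : Tendsto (fun k : ℕ =>
        8 * (C *
          (s * ((mu ρ).real {x : V κ | ‖x‖ ≤ k})⁻¹)) *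
        (((mu ρ).real {x : V κ | ‖x‖ ≤ k})⁻¹ * I))
      atTop (𝓝 (8 * (C * (s * 1)) * (1 * I))) :=
    (((hM1.const_mul s).const_mul C).const_mul 8).mul (hM1.mul_const I)
  have hfin := le_of_tendsto_of_tendsto hL hR key
  have hvar : ∫ x, (f x - ∫ y, f y ∂(mu ρ)) ^ 2 ∂(mu ρ) =
      ∫ x, f x ^ 2 ∂(mu ρ) - (∫ x, f x ∂(mu ρ)) ^ 2 := by
    obtain ⟨a, ha⟩ : ∃ a : ℝ, a = ∫ y, f y ∂(mu ρ) := ⟨_, rfl⟩
    rw [← ha]
    have h2 : ∀ x, (f x - a) ^ 2 = (f x ^ 2 - 2 * a * f x) + a ^ 2 := fun x => by ring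
    simp_rw [h2]
    have h3 : Integrable (fun x => 2 * a * f x) (mu ρ) := hf1.const_mul _
    have h4 : Integrable (fun x => f x ^ 2 - 2 * a * f x) (mu ρ) := hf2.sub h3
    rw [integral_add h4 (integrable_const _), integral_sub hf2 h3, integral_const_mul, ← ha]
    simp
    ring
  rw [hvar]
  have h6 : (∫ x, f x ^ 2 ∂(mu ρ) - (∫ x, f x ∂(mu ρ)) ^ 2) ^ 2 ≤ 8 * C * s * I := by
    have : 8 * (C * (s * 1)) * (1 * I) = 8 * C * s * I := by ring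
    rw [this] at hfin
    simpa using hfin
  calc ENNReal.ofReal ((∫ x, f x ^ 2 ∂(mu ρ) - (∫ x, f x ∂(mu ρ)) ^ 2) ^ 2)
      ≤ ENNReal.ofReal (8 * C * s * I) := ENNReal.ofReal_le_ofReal h6
    _ = ENNReal.ofReal (8 * C * s) *
        ∫⁻ x, ENNReal.ofReal (‖fderiv ℝ f x‖ ^ 2) ∂(mu ρ) := by
      rw [ENNReal.ofReal_mul (by positivity), hIdef, ENNReal.ofReal_toReal hI]

/-- the mean vector -/
noncomputable def mean (μ : Measure (V κ)) : V κ :=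
  WithLp.toLp 2 fun k => ∫ x, x k ∂μ

theorem lin_mean (μ : Measure (V κ)) (hint : ∀ k, Integrable (fun x : V κ => x k) μ)
    (L : V κ →ₗ[ℝ] ℝ) : L (mean μ) = ∫ x, L x ∂μ := by
  classical
  have h1 : ∀ x : V κ, L x = ∑ k, x k * L (EuclideanSpace.single k 1) := by
    intro x
    have h2 : x = ∑ k, x k • EuclideanSpace.single k (1 : ℝ) := by
      ext j
      simp [Finset.sum_apply, Pi.single_apply]
    conv_lhs => rw [h2]
    rw [map_sum]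
    refine Finset.sum_congr rfl fun k _ => ?_
    rw [map_smul, smul_eq_mul]
  have h5 : ∫ x, L x ∂μ = ∫ x : V κ,
      ∑ k, x k * L (EuclideanSpace.single k 1) ∂μ := by
    congr 1
    funext x
    exact h1 x
  rw [h5, h1 (mean μ), integral_finsetSum _ fun k _ => (hint k).mul_const _]
  refine Finset.sum_congr rfl fun k _ => ?_
  rw [integral_mul_const]
  rfl

theorem map_shift (ρ : V κ → ℝ) (hm : Measurable ρ) (a : V κ) :
    (mu (fun x => ρ (x + a))).map (fun x => x + a) = mu ρ := by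
  have hT : MeasurePreserving (fun x : V κ => x + a) volume volume :=
    measurePreserving_add_right volume a
  ext s hs
  rw [Measure.map_apply (measurable_add_const a) hs]
  unfold mu
  rw [withDensity_apply _ hs, withDensity_apply _ (measurable_add_const a hs)]
  exact hT.setLIntegral_comp_preimage hs (f := fun x => ENNReal.ofReal (ρ x))
    hm.ennreal_ofReal

theorem mean_fix (ρ : V κ → ℝ) (hρ : GD G ρ)
    (hint : ∀ k, Integrable (fun x : V κ => x k) (mu ρ)) :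
    ∀ g ∈ G, g (mean (mu ρ)) = mean (mu ρ) := by
  intro g hg
  ext k
  have hmeas : Measurable (g : V κ → V κ) := g.continuous.measurable
  have h3 : ∫ y : V κ, y k ∂((mu ρ).map g) = ∫ x, (g x) k ∂(mu ρ) := by
    refine integral_map hmeas.aemeasurable ?_
    have : Continuous (fun y : V κ => y k) := by fun_prop
    exact this.aestronglyMeasurable
  rw [gd_map hρ g hg] at h3
  have h4 := lin_mean (mu ρ) hint
    ((EuclideanSpace.proj k : V κ →L[ℝ] ℝ).toLinearMap ∘ₗ g.toLinearEquiv.toLinearMap)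
  show (g (mean (mu ρ))) k = ∫ x, x k ∂(mu ρ)
  rw [h3]
  exact h4

theorem cent {C : ℝ} (H : ∀ ρ : V κ → ℝ, GD G ρ → mu ρ univ = 1 → ∀ s : ℝ, 0 < s →
      (∀ θ : V κ, ∫⁻ x, ENNReal.ofReal (⟪θ, x⟫_ℝ ^ 2) ∂(mu ρ) ≤ ENNReal.ofReal (s * ‖θ‖ ^ 2)) →
      ∀ f : V κ → ℝ, ContDiff ℝ 1 f →
      ((∀ x, ‖fderiv ℝ f x‖ ≤ 1) → MemLp f 2 (mu ρ) ∧
        ProbabilityTheory.variance f (mu ρ) ≤ C * s) ∧
      ((∀ x, |f x| ≤ 1) → ENNReal.ofReal (ProbabilityTheory.variance f (mu ρ) ^ 2) ≤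
        ENNReal.ofReal (C * s) * ∫⁻ x, ENNReal.ofReal (‖fderiv ℝ f x‖ ^ 2) ∂(mu ρ)))
    (ρ : V κ → ℝ) (hρ : GD G ρ) (h1 : mu ρ univ = 1) (s : ℝ) (hs : 0 < s)
    (hvar : ∀ θ : V κ, ProbabilityTheory.evariance (fun x => ⟪θ, x⟫_ℝ) (mu ρ) ≤
      ENNReal.ofReal (s * ‖θ‖ ^ 2)) (f : V κ → ℝ) (hf : ContDiff ℝ 1 f) :
    ((∀ x, ‖fderiv ℝ f x‖ ≤ 1) → MemLp f 2 (mu ρ) ∧
      ProbabilityTheory.variance f (mu ρ) ≤ C * s) ∧
    ((∀ x, |f x| ≤ 1) → ENNReal.ofReal (ProbabilityTheory.variance f (mu ρ) ^ 2) ≤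
      ENNReal.ofReal (C * s) * ∫⁻ x, ENNReal.ofReal (‖fderiv ℝ f x‖ ^ 2) ∂(mu ρ)) := by
  classical
  have : IsProbabilityMeasure (mu ρ) := ⟨h1⟩
  have hL2 : ∀ θ : V κ, MemLp (fun x : V κ => ⟪θ, x⟫_ℝ) 2 (mu ρ) := by
    intro θ
    have hmeas : AEStronglyMeasurable (fun x : V κ => ⟪θ, x⟫_ℝ) (mu ρ) := by
      have : Continuous (fun x : V κ => ⟪θ, x⟫_ℝ) := by fun_prop
      exact this.aestronglyMeasurable
    rw [← ProbabilityTheory.evariance_lt_top_iff_memLp hmeas]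
    exact lt_of_le_of_lt (hvar θ) ENNReal.ofReal_lt_top
  have hint : ∀ k, Integrable (fun x : V κ => x k) (mu ρ) := by
    intro k
    have h2 := (hL2 (EuclideanSpace.single k 1)).integrable (by norm_num)
    refine h2.congr ?_
    filter_upwards with x
    rw [EuclideanSpace.inner_single_left]
    simp
  set a := mean (mu ρ) with ha
  have hρ' : GD G (fun x => ρ (x + a)) := gd_trans hρ a (mean_fix ρ hρ hint)
  have hmap := map_shift ρ hρ.meas a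
  have hemb : MeasurableEmbedding (fun x : V κ => x + a) := measurableEmbedding_addRight a
  have h1' : mu (fun x => ρ (x + a)) univ = 1 := by
    have h2 := congrArg (fun m : Measure (V κ) => m univ) hmap
    rw [Measure.map_apply (measurable_add_const a) MeasurableSet.univ, preimage_univ, h1] at h2
    exact h2
  have hI : ∀ g : V κ → ℝ,
      ∫ x, g x ∂(mu ρ) = ∫ x, g (x + a) ∂(mu fun x => ρ (x + a)) := by
    intro g
    conv_lhs => rw [← hmap]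
    exact hemb.integral_map g
  have hLI : ∀ g : V κ → ℝ≥0∞,
      ∫⁻ x, g x ∂(mu ρ) = ∫⁻ x, g (x + a) ∂(mu fun x => ρ (x + a)) := by
    intro g
    conv_lhs => rw [← hmap]
    exact hemb.lintegral_map g
  have hvar' : ∀ θ : V κ,
      ∫⁻ x, ENNReal.ofReal (⟪θ, x⟫_ℝ ^ 2) ∂(mu fun x => ρ (x + a)) ≤
        ENNReal.ofReal (s * ‖θ‖ ^ 2) := by
    intro θ
    have h2 := hvar θ
    unfold ProbabilityTheory.evariance at h2
    rw [hLI] at h2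
    refine le_trans (le_of_eq ?_) h2
    refine lintegral_congr fun x => ?_
    have h3 : ∫ x, ⟪θ, x⟫_ℝ ∂(mu ρ) = ⟪θ, a⟫_ℝ := by
      have h4 := lin_mean (mu ρ) hint (innerₛₗ ℝ θ)
      simp only [innerₛₗ_apply_apply] at h4
      exact h4.symm
    rw [h3]
    show ENNReal.ofReal (⟪θ, x⟫_ℝ ^ 2) = ‖⟪θ, x + a⟫_ℝ - ⟪θ, a⟫_ℝ‖ₑ ^ 2
    rw [inner_add_right, add_sub_cancel_right, ← ofReal_norm,
      ← ENNReal.ofReal_pow (norm_nonneg _), Real.norm_eq_abs, sq_abs]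
  have hg : ContDiff ℝ 1 (fun x => f (x + a)) := hf.comp (contDiff_id.add contDiff_const)
  have hfd : ∀ x, fderiv ℝ (fun x => f (x + a)) x = fderiv ℝ f (x + a) := fun x => by
    rw [fderiv_comp_add_right]
  have key := H (fun x => ρ (x + a)) hρ' h1' s hs hvar' (fun x => f (x + a)) hg
  have hev : ProbabilityTheory.evariance (fun x => f (x + a)) (mu fun x => ρ (x + a)) =
      ProbabilityTheory.evariance f (mu ρ) := by
    unfold ProbabilityTheory.evariance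
    rw [hLI, hI f]
  have hv : ProbabilityTheory.variance (fun x => f (x + a)) (mu fun x => ρ (x + a)) =
      ProbabilityTheory.variance f (mu ρ) := by
    unfold ProbabilityTheory.variance
    rw [hev]
  rw [hv] at key
  refine ⟨fun hL => ?_, fun hb => ?_⟩
  · obtain ⟨k1, k2⟩ := key.1 (fun x => by rw [hfd]; exact hL (x + a))
    refine ⟨?_, k2⟩
    rw [← hmap]
    exact (hemb.memLp_map_measure_iff).mpr k1
  · have k := key.2 (fun x => hb (x + a))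
    rw [hLI (fun x => ENNReal.ofReal (‖fderiv ℝ f x‖ ^ 2))]
    refine k.trans (le_of_eq ?_)
    congr 1
    refine lintegral_congr fun x => ?_
    rw [hfd]

/-- from the bounded support case, second moments -/
theorem weak {C : ℝ} (hC : 0 < C) (hcore : SC G C) (ρ : V κ → ℝ) (hρ : GD G ρ)
    (h1 : mu ρ univ = 1) (s : ℝ) (hs : 0 < s)
    (hmom : ∀ θ : V κ, ∫⁻ x, ENNReal.ofReal (⟪θ, x⟫_ℝ ^ 2) ∂(mu ρ) ≤
      ENNReal.ofReal (s * ‖θ‖ ^ 2)) (f : V κ → ℝ) (hf : ContDiff ℝ 1 f)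
    (hfb : ∀ x, |f x| ≤ 1) :
    ENNReal.ofReal ((∫ x, (f x - ∫ y, f y ∂(mu ρ)) ^ 2 ∂(mu ρ)) ^ 2) ≤
      ENNReal.ofReal (8 * C * s) * ∫⁻ x, ENNReal.ofReal (‖fderiv ℝ f x‖ ^ 2) ∂(mu ρ) :=
  mainc hC hcore ρ hρ h1 s hs hmom f hf hfb

/-- from the bounded support case, covariance -/
theorem full {C : ℝ} (hC : 0 < C) (hcore : SC G C) (ρ : V κ → ℝ) (hρ : GD G ρ)
    (h1 : mu ρ univ = 1) (s : ℝ) (hs : 0 < s)
    (hvar : ∀ θ : V κ, ProbabilityTheory.evariance (fun x => ⟪θ, x⟫_ℝ) (mu ρ) ≤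
      ENNReal.ofReal (s * ‖θ‖ ^ 2)) (f : V κ → ℝ) (hf : ContDiff ℝ 1 f) :
    ((∀ x, ‖fderiv ℝ f x‖ ≤ 1) → MemLp f 2 (mu ρ) ∧
      ProbabilityTheory.variance f (mu ρ) ≤ 8 * C * s) ∧
    ((∀ x, |f x| ≤ 1) → ENNReal.ofReal (ProbabilityTheory.variance f (mu ρ) ^ 2) ≤
      ENNReal.ofReal (8 * C * s) * ∫⁻ x, ENNReal.ofReal (‖fderiv ℝ f x‖ ^ 2) ∂(mu ρ)) := by
  refine cent (C := 8 * C) ?_ ρ hρ h1 s hs hvar f hf
  intro ρ hρ h1 s hs hmom f hf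
  have hprob' : IsProbabilityMeasure (mu ρ) := ⟨h1⟩
  have hvar : ProbabilityTheory.variance f (mu ρ) =
      ∫ x, (f x - ∫ y, f y ∂(mu ρ)) ^ 2 ∂(mu ρ) :=
    ProbabilityTheory.variance_eq_integral hf.continuous.measurable.aemeasurable
  rw [hvar]
  refine ⟨fun hf1 => ?_, fun hf1 => mainc hC hcore ρ hρ h1 s hs hmom f hf hf1⟩
  obtain ⟨h2, h3⟩ := mainb hC hcore ρ hρ h1 s hs hmom f hf hf1
  refine ⟨h2, h3.trans ?_⟩
  have : 0 < C * s := mul_pos hC hs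
  linarith

end main

end Pool.Agent.TH594.KP
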