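import Pool.Agent.H59.L.S8.TH594.KP.Main

/-!
# The bound for `N` particles of `q` species in `ℝ^d`
-/

set_option autoImplicit false

namespace Pool.Agent.TH594.KP

open MeasureTheory Set
open scoped ENNReal InnerProductSpace
open Pool.Agent.H212R2.KLS (mu Bdd)

theorem fac_pos {q d : ℕ} (hq : 1 ≤ q) (hd : 1 ≤ d) : 0 < fac q d := by
  unfold fac
  have h1 : (1 : ℝ) ≤ q := by exact_mod_cast hq
  have h2 : (1 : ℝ) ≤ d := by exact_mod_cast hd
  have h3 := Real.log_nonneg h1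
  positivity

theorem sqrt_fac {q d : ℕ} (hq : 1 ≤ q) :
    Real.sqrt (fac q d) = Real.sqrt q * (d : ℝ) ^ 2 * (1 + Real.log q) := by
  unfold fac
  have h1 : (1 : ℝ) ≤ q := by exact_mod_cast hq
  have h3 := Real.log_nonneg h1
  have e : (q : ℝ) * (d : ℝ) ^ 4 * (1 + Real.log q) ^ 2 =
      (Real.sqrt q * (d : ℝ) ^ 2 * (1 + Real.log q)) ^ 2 := by
    rw [mul_pow, mul_pow, Real.sq_sqrt (by linarith)]
    ring
  rw [e, Real.sqrt_sq (by positivity)]

theorem sc : ∃ C : ℝ, 0 < C ∧ ∀ {N d q : ℕ} (b : Fin N → Fin q), Function.Surjective b →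
    1 ≤ d → 1 ≤ q → SC (GG (Fin d) b) (C * fac q d) := by
  obtain ⟨C, hC, H⟩ := core
  refine ⟨C, hC, ?_⟩
  intro N d q b hb hd hq ρ hρ hbd h1 s hs hmom f hf hf1
  have h := H hb (by rw [Fintype.card_fin]; exact hd) (by rw [Fintype.card_fin]; exact hq)
    ρ hρ hbd h1 s hs hmom f hf hf1
  rw [Fintype.card_fin, Fintype.card_fin] at h
  exact h

/-- invariance under exchanges of particles of the same species from the invariance under
permutations which preserve the species -/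
theorem gd_of {N d q : ℕ} {b : Fin N → Fin q} {ρ : V (Fin N × Fin d) → ℝ} (hnn : ∀ x, 0 ≤ ρ x)
    (hmeas : Measurable ρ)
    (hlc : ∀ x y, ∀ t : ℝ, 0 < t → t < 1 → ρ x ^ (1 - t) * ρ y ^ t ≤ ρ ((1 - t) • x + t • y))
    (hinv : ∀ k l : Fin N, b k = b l → ∀ x, ρ (swp k l x) = ρ x) : GD (GG (Fin d) b) ρ :=
  ⟨hnn, hmeas, hlc, by
    rintro g ⟨k, l, hkl, rfl⟩ x
    exact hinv k l hkl x⟩

theorem swap_fix {N q : ℕ} {b : Fin N → Fin q} {k l : Fin N} (hkl : b k = b l) (i : Fin N) :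
    b (Equiv.swap k l i) = b i := by
  by_cases h2 : i = k
  · rw [h2, Equiv.swap_apply_left, hkl]
  · by_cases h3 : i = l
    · rw [h3, Equiv.swap_apply_right, hkl]
    · rw [Equiv.swap_apply_of_ne_of_ne h2 h3]

end Pool.Agent.TH594.KP
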