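import Pool.Agent.H59.L.S8.TH594.KP.Hardy
import Pool.Agent.H59.L.S8.W124.SX.Iter
import Pool.Agent.H59.L.S8.H888R2.KT.N9
import Pool.Agent.H59.L.S8.H888R2.KT.N10

/-!
# Symmetric functions of the particles

`ev b (s, a)` is the unit vector moving all particles of the species `s` in the coordinate
direction `a`.  If the density is strongly log-concave in these directions and satisfies the Hardy
inequality for functions odd under an exchange, then symmetric functions satisfy a Poincare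
inequality.
-/

set_option autoImplicit false

namespace Pool.Agent.TH594.KP

open MeasureTheory Set Filter
open scoped ENNReal InnerProductSpace Topology
open Pool.Agent.H212R2.KLS (mu Bdd)
open Pool.Agent.H888R2.KT (LC St zz gs gc pst hs tw)
open Pool.Agent.H888R2.KT
open Pool.Agent.H888R2.KT.N9x

variable {ι δ β : Type} [Fintype ι] [Fintype δ] [Fintype β] [DecidableEq ι] [DecidableEq δ]
  [DecidableEq β]

/-- the particles of the species `s` -/
def Bs (b : ι → β) (s : β) : Finset ι := Finset.univ.filter fun i => b i = s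

omit [Fintype β] [DecidableEq ι] in
theorem mem_Bs (b : ι → β) (s : β) (i : ι) : i ∈ Bs b s ↔ b i = s := by
  unfold Bs
  rw [Finset.mem_filter]
  exact ⟨fun h => h.2, fun h => ⟨Finset.mem_univ _, h⟩⟩

omit [Fintype β] [DecidableEq ι] in
theorem card_Bs_pos {b : ι → β} (hb : Function.Surjective b) (s : β) :
    (0 : ℝ) < (Bs b s).card := by
  obtain ⟨i, hi⟩ := hb s
  have h : 0 < (Bs b s).card := Finset.card_pos.2 ⟨i, (mem_Bs b s i).2 hi⟩
  exact_mod_cast h

/-- the unit vector moving all particles of a species in a coordinate direction -/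
noncomputable def ev (b : ι → β) (c : β × δ) : V (ι × δ) :=
  WithLp.toLp 2 fun p => if b p.1 = c.1 ∧ p.2 = c.2 then 1 / Real.sqrt (Bs b c.1).card else 0

/-- enumeration of the vectors `ev` -/
noncomputable def ed (δ : Type) [Fintype δ] [DecidableEq δ] (b : ι → β)
    (j : Fin (Fintype.card (β × δ))) : V (ι × δ) :=
  ev b ((Fintype.equivFin (β × δ)).symm j)

omit [DecidableEq ι] in
theorem sum_ed (b : ι → β) (F : V (ι × δ) → ℝ) :
    ∑ j, F (ed δ b j) = ∑ c : β × δ, F (ev b c) := by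
  unfold ed
  exact Equiv.sum_comp (Fintype.equivFin (β × δ)).symm fun c => F (ev b c)

omit [Fintype β] [DecidableEq ι] in
theorem inner_ev (b : ι → β) (c : β × δ) (x : V (ι × δ)) :
    ⟪ev b c, x⟫_ℝ = 1 / Real.sqrt (Bs b c.1).card * ∑ i ∈ Bs b c.1, x (i, c.2) := by
  rw [PiLp.inner_apply, Fintype.sum_prod_type]
  have h1 : ∀ i : ι, ∑ a : δ, ⟪(ev b c) (i, a), x (i, a)⟫_ℝ =
      if b i = c.1 then 1 / Real.sqrt (Bs b c.1).card * x (i, c.2) else 0 := by
    intro i
    rw [Finset.sum_eq_single c.2]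
    · show ⟪(if b i = c.1 ∧ c.2 = c.2 then 1 / Real.sqrt (Bs b c.1).card else 0 : ℝ),
        x (i, c.2)⟫_ℝ = _
      by_cases h : b i = c.1
      · simp [h, mul_comm]
      · simp [h]
    · intro a _ ha
      show ⟪(if b i = c.1 ∧ a = c.2 then 1 / Real.sqrt (Bs b c.1).card else 0 : ℝ),
        x (i, a)⟫_ℝ = 0
      simp [ha]
    · intro h
      exact absurd (Finset.mem_univ _) h
  rw [Finset.sum_congr rfl fun i _ => h1 i, ← Finset.sum_filter, ← Finset.mul_sum]
  rfl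

omit [Fintype β] [DecidableEq ι] in
theorem inner_ev_ev {b : ι → β} (hb : Function.Surjective b) (c c' : β × δ) :
    ⟪ev b c, ev b c'⟫_ℝ = if c = c' then 1 else 0 := by
  rw [inner_ev]
  have hn := card_Bs_pos hb c.1
  by_cases h : c = c'
  · subst h
    rw [if_pos rfl]
    have h1 : ∀ i ∈ Bs b c.1, (ev b c) (i, c.2) = 1 / Real.sqrt (Bs b c.1).card := by
      intro i hi
      show (if b i = c.1 ∧ c.2 = c.2 then 1 / Real.sqrt (Bs b c.1).card else 0 : ℝ) = _
      rw [if_pos ⟨(mem_Bs b c.1 i).1 hi, rfl⟩]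
    rw [Finset.sum_congr rfl h1, Finset.sum_const, nsmul_eq_mul]
    have h2 : Real.sqrt (Bs b c.1).card ≠ 0 := (Real.sqrt_pos.2 hn).ne'
    have h3 : Real.sqrt (Bs b c.1).card * Real.sqrt (Bs b c.1).card = (Bs b c.1).card :=
      Real.mul_self_sqrt hn.le
    field_simp
    rw [sq, h3]
  · rw [if_neg h]
    have h1 : ∀ i ∈ Bs b c.1, (ev b c') (i, c.2) = 0 := by
      intro i hi
      show (if b i = c'.1 ∧ c.2 = c'.2 then 1 / Real.sqrt (Bs b c'.1).card else 0 : ℝ) = _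
      rw [if_neg]
      rintro ⟨h2, h3⟩
      exact h (Prod.ext (((mem_Bs b c.1 i).1 hi).symm.trans h2) h3)
    rw [Finset.sum_congr rfl h1, Finset.sum_const_zero, mul_zero]

omit [DecidableEq ι] in
theorem orth {b : ι → β} (hb : Function.Surjective b) : Orthonormal ℝ (ed δ b) := by
  rw [orthonormal_iff_ite]
  intro i j
  unfold ed
  rw [inner_ev_ev hb]
  by_cases h : i = j
  · subst h
    simp
  · rw [if_neg, if_neg h]
    intro h2
    exact h ((Fintype.equivFin (β × δ)).symm.injective h2)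

omit [Fintype β] [DecidableEq ι] in
theorem P_ev (b : ι → β) (c : β × δ) (i : ι) :
    P i (ev b c) = if b i = c.1 then
      (WithLp.toLp 2 fun a => if a = c.2 then 1 / Real.sqrt (Bs b c.1).card else 0 : V δ)
      else 0 := by
  ext a
  rw [P_apply]
  show (if b i = c.1 ∧ a = c.2 then 1 / Real.sqrt (Bs b c.1).card else 0 : ℝ) = _
  by_cases h : b i = c.1
  · simp [h]
  · simp [h]

omit [Fintype β] in
theorem swp_ev (b : ι → β) (c : β × δ) (k l : ι) (hkl : b k = b l) :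
    swp k l (ev b c) = ev b c := by
  refine ext_P _ _ fun i => ?_
  rw [P_swp, P_ev, P_ev]
  have h1 : b (Equiv.swap k l i) = b i := by
    by_cases h2 : i = k
    · rw [h2, Equiv.swap_apply_left, hkl]
    · by_cases h3 : i = l
      · rw [h3, Equiv.swap_apply_right, hkl]
      · rw [Equiv.swap_apply_of_ne_of_ne h2 h3]
  rw [h1]

/-! ### algebraic identities -/

theorem alg_one {α : Type} (S : Finset α) (hS : (S.card : ℝ) ≠ 0) (a : α → ℝ) :
    ∑ k ∈ S, a k ^ 2 - 1 / (S.card : ℝ) * (∑ k ∈ S, a k) ^ 2 =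
      1 / (2 * (S.card : ℝ)) * ∑ k ∈ S, ∑ l ∈ S, (a k - a l) ^ 2 := by
  have h1 : ∑ k ∈ S, ∑ l ∈ S, (a k - a l) ^ 2 =
      2 * S.card * ∑ k ∈ S, a k ^ 2 - 2 * (∑ k ∈ S, a k) ^ 2 := by
    have h2 : ∀ k l, (a k - a l) ^ 2 = a k ^ 2 - 2 * (a k * a l) + a l ^ 2 := fun k l => by ring
    simp only [h2, Finset.sum_add_distrib, Finset.sum_sub_distrib, Finset.sum_const,
      nsmul_eq_mul, ← Finset.mul_sum, ← Finset.sum_mul]
    ring
  rw [h1]
  field_simp

omit [DecidableEq ι] [DecidableEq δ] in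
theorem sum_species (b : ι → β) (F : ι → δ → ℝ) :
    ∑ p : ι × δ, F p.1 p.2 = ∑ c : β × δ, ∑ i ∈ Bs b c.1, F i c.2 := by
  have h1 : ∑ p : ι × δ, F p.1 p.2 = ∑ a : δ, ∑ i : ι, F i a := by
    rw [Fintype.sum_prod_type, Finset.sum_comm]
  have h2 : ∑ c : β × δ, ∑ i ∈ Bs b c.1, F i c.2 = ∑ a : δ, ∑ s : β, ∑ i ∈ Bs b s, F i a := by
    rw [Fintype.sum_prod_type, Finset.sum_comm]
  rw [h1, h2]
  refine Finset.sum_congr rfl fun a _ => ?_
  unfold Bs
  exact (Finset.sum_fiberwise Finset.univ b fun i => F i a).symm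

omit [DecidableEq ι] [DecidableEq δ] in
theorem alg {b : ι → β} (hb : Function.Surjective b) (a : ι × δ → ℝ) :
    ∑ p, a p ^ 2 - ∑ c : β × δ, 1 / ((Bs b c.1).card : ℝ) * (∑ i ∈ Bs b c.1, a (i, c.2)) ^ 2 =
      ∑ c : β × δ, 1 / (2 * ((Bs b c.1).card : ℝ)) *
        ∑ k ∈ Bs b c.1, ∑ l ∈ Bs b c.1, (a (k, c.2) - a (l, c.2)) ^ 2 := by
  have h1 := sum_species b fun i α => a (i, α) ^ 2
  have h2 : ∑ p : ι × δ, a p ^ 2 = ∑ p : ι × δ, a (p.1, p.2) ^ 2 := rfl
  rw [h2, h1, ← Finset.sum_sub_distrib]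
  refine Finset.sum_congr rfl fun c _ => ?_
  exact alg_one _ (card_Bs_pos hb c.1).ne' fun k => a (k, c.2)

theorem sum3 {A B C : Type} (s : Finset A) (t : Finset B) (u : Finset C) (f : A → B → C → ℝ) :
    ∑ a ∈ s, ∑ b ∈ t, ∑ c ∈ u, f a b c = ∑ c ∈ u, ∑ a ∈ s, ∑ b ∈ t, f a b c := by
  calc ∑ a ∈ s, ∑ b ∈ t, ∑ c ∈ u, f a b c = ∑ a ∈ s, ∑ c ∈ u, ∑ b ∈ t, f a b c :=
        Finset.sum_congr rfl fun a _ => Finset.sum_comm
    _ = _ := Finset.sum_comm

theorem alg2 {b : ι → β} (hb : Function.Surjective b) (A : ι × δ → (V (ι × δ) →L[ℝ] ℝ)) :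
    ∑ c : β × δ, 1 / (2 * ((Bs b c.1).card : ℝ)) *
        ∑ k ∈ Bs b c.1, ∑ l ∈ Bs b c.1, ‖A (k, c.2) - A (l, c.2)‖ ^ 2 ≤ ∑ p, ‖A p‖ ^ 2 := by
  have h3 : ∑ p : ι × δ, ‖A p‖ ^ 2 =
      ∑ i : ι × δ, ∑ p : ι × δ, (A p (EuclideanSpace.single i 1)) ^ 2 := by
    rw [Finset.sum_comm]
    exact Finset.sum_congr rfl fun k _ => N8x.norm_sq_clm _
  have h2 : ∑ c : β × δ, 1 / (2 * ((Bs b c.1).card : ℝ)) *
        ∑ k ∈ Bs b c.1, ∑ l ∈ Bs b c.1, ‖A (k, c.2) - A (l, c.2)‖ ^ 2 =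
      ∑ i : ι × δ, ∑ c : β × δ, 1 / (2 * ((Bs b c.1).card : ℝ)) *
        ∑ k ∈ Bs b c.1, ∑ l ∈ Bs b c.1, (A (k, c.2) (EuclideanSpace.single i 1) -
          A (l, c.2) (EuclideanSpace.single i 1)) ^ 2 := by
    rw [Finset.sum_comm]
    refine Finset.sum_congr rfl fun c _ => ?_
    rw [← Finset.mul_sum, ← sum3]
    congr 1
    refine Finset.sum_congr rfl fun k _ => ?_
    refine Finset.sum_congr rfl fun l _ => ?_
    rw [N8x.norm_sq_clm]
    rfl
  rw [h2, h3]
  refine Finset.sum_le_sum fun i _ => ?_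
  rw [← alg hb fun p => A p (EuclideanSpace.single i 1)]
  have : 0 ≤ ∑ c : β × δ, 1 / ((Bs b c.1).card : ℝ) *
      (∑ j ∈ Bs b c.1, A (j, c.2) (EuclideanSpace.single i 1)) ^ 2 :=
    Finset.sum_nonneg fun c _ => by positivity
  linarith

omit [Fintype β] in
theorem ev_eq (b : ι → β) (c : β × δ) : ev b c = ∑ i ∈ Bs b c.1,
    (1 / Real.sqrt (Bs b c.1).card) • (EuclideanSpace.single (i, c.2) (1 : ℝ) : V (ι × δ)) := by
  refine ext_inner_left ℝ fun x => ?_
  rw [real_inner_comm, inner_ev, inner_sum, Finset.mul_sum]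
  refine Finset.sum_congr rfl fun i _ => ?_
  rw [real_inner_smul_right, EuclideanSpace.inner_single_right]
  simp

theorem hs_eq (v : V (ι × δ) → ℝ) (x : V (ι × δ)) : hs v x =
    ∑ i, ‖fderiv ℝ (fun z => fderiv ℝ v z (EuclideanSpace.single i 1)) x‖ ^ 2 := by
  unfold hs
  refine Finset.sum_congr rfl fun i _ => ?_
  have e : @EuclideanSpace.single (ι × δ) ℝ _ (fun a b => Classical.propDecidable (a = b)) i (1:ℝ) =
      EuclideanSpace.single i (1:ℝ) := by
    have hd : (fun a b => Classical.propDecidable (a = b) : DecidableEq (ι × δ)) =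
        instDecidableEqProd := Subsingleton.elim _ _
    rw [hd]
  rw [e]

theorem swp_single (k l : ι) (i : ι) (a : δ) :
    swp k l (EuclideanSpace.single (i, a) (1 : ℝ)) =
      EuclideanSpace.single (Equiv.swap k l i, a) (1 : ℝ) := by
  ext p
  obtain ⟨j, c⟩ := p
  rw [swp_apply]
  by_cases h : (j, c) = (Equiv.swap k l i, a)
  · rw [h]
    simp only [Equiv.swap_apply_self]
    simp
  · have h2 : (Equiv.swap k l j, c) ≠ (i, a) := by
      intro h3
      apply h
      rw [Prod.mk.injEq] at h3 ⊢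
      refine ⟨?_, h3.2⟩
      rw [← h3.1, Equiv.swap_apply_self]
    simp [h, h2]

omit [Fintype β] [DecidableEq ι] [DecidableEq δ] [DecidableEq β] in
theorem fd_iso (T : V (ι × δ) ≃ₗᵢ[ℝ] V (ι × δ)) (v : V (ι × δ) → ℝ) (hd : Differentiable ℝ v)
    (he : ∀ x, v (T x) = v x) (z w : V (ι × δ)) :
    fderiv ℝ v (T z) (T w) = fderiv ℝ v z w := by
  have h1 : HasFDerivAt (fun x => v (T x))
      ((fderiv ℝ v (T z)).comp (T.toContinuousLinearEquiv : V (ι × δ) →L[ℝ] V (ι × δ))) z :=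
    (hd (T z)).hasFDerivAt.comp z (T.toContinuousLinearEquiv.hasFDerivAt)
  have h2 : (fun x => v (T x)) = v := funext he
  rw [h2] at h1
  rw [h1.fderiv]
  rfl

theorem fd_swp (v : V (ι × δ) → ℝ) (hv : ContDiff ℝ 2 v) (k l : ι)
    (he : ∀ x, v (swp k l x) = v x) (z : V (ι × δ)) (i : ι) (a : δ) :
    fderiv ℝ v (swp k l z) (EuclideanSpace.single (Equiv.swap k l i, a) 1) =
      fderiv ℝ v z (EuclideanSpace.single (i, a) 1) := by
  rw [← swp_single]
  exact fd_iso (swp k l) v (hv.differentiable (by norm_num)) he z _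

theorem sym {b : ι → β} (hb : Function.Surjective b) {ρ : V (ι × δ) → ℝ}
    (hS : GD (GG δ b) ρ) (hρ : LC ρ) (L : ℝ) (hL : 0 < L)
    (hodd : ∀ (k l : ι) (f : V (ι × δ) → ℝ), k ≠ l → b k = b l → ContDiff ℝ 1 f →
      (∀ x, f (swp k l x) = - f x) →
      ∫ x, f x ^ 2 ∂(mu ρ) ≤ L * ∫ x, ‖fderiv ℝ f x‖ ^ 2 ∂(mu ρ))
    (K : ℝ) (hLK : L ≤ K) (hSt : St (ed δ b) K ρ) (u : V (ι × δ) → ℝ) (hu1 : ContDiff ℝ 1 u)
    (hu : ∀ k l, b k = b l → ∀ x, u (swp k l x) = u x) :
    ∃ c : ℝ, ∫ x, (u x - c) ^ 2 ∂(mu ρ) ≤ 4 * K * ∫ x, ‖fderiv ℝ u x‖ ^ 2 ∂(mu ρ) := by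
  have hK : 0 < K := lt_of_lt_of_le hL hLK
  have hon : Orthonormal ℝ (ed δ b) := orth hb
  have hrho : ∀ k l, b k = b l → ∀ x, ρ (swp k l x) = ρ x :=
    fun k l hkl x => hS.inv _ ⟨k, l, hkl, rfl⟩ x
  refine Pool.Agent.W124.SX.iter hρ (ed δ b) hon K hK hSt K le_rfl
    {w | ∀ k l, b k = b l → ∀ x, w (swp k l x) = w x} ?_ ?_ u hu hu1
  · intro w hw _ k l hkl x
    exact equiv hρ K (swp k l) (hrho k l hkl) w (hw k l hkl) x
  · intro w hw hw1
    obtain ⟨h2, -⟩ := key hρ (ed δ b) hon K hK hSt K hK w hw1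
    have hinv : ∀ k l, b k = b l → ∀ x, gs K (pst K ρ w) (swp k l x) = gs K (pst K ρ w) x :=
      fun k l hkl x => equiv hρ K (swp k l) (hrho k l hkl) w (hw k l hkl) x
    generalize gs K (pst K ρ w) = v at h2 hinv ⊢
    have hdi : ∀ p : ι × δ,
        ContDiff ℝ 1 (fun z => fderiv ℝ v z (EuclideanSpace.single p (1 : ℝ))) :=
      fun p => (h2.fderiv_right (m := 1) (by norm_num)).clm_apply contDiff_const
    have hdkl : ∀ p q : ι × δ, ContDiff ℝ 1 (fun z =>
        fderiv ℝ v z (EuclideanSpace.single p (1 : ℝ)) -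
        fderiv ℝ v z (EuclideanSpace.single q (1 : ℝ))) := fun p q => (hdi p).sub (hdi q)
    -- the left side
    have hleft : ∀ x, ‖fderiv ℝ v x‖ ^ 2 - ∑ j, (fderiv ℝ v x (ed δ b j)) ^ 2 =
        ∑ c : β × δ, 1 / (2 * ((Bs b c.1).card : ℝ)) * ∑ k ∈ Bs b c.1, ∑ l ∈ Bs b c.1,
          (fderiv ℝ v x (EuclideanSpace.single (k, c.2) (1 : ℝ)) -
          fderiv ℝ v x (EuclideanSpace.single (l, c.2) (1 : ℝ))) ^ 2 := by
      intro x
      rw [← alg hb fun p => fderiv ℝ v x (EuclideanSpace.single p (1 : ℝ)), N8x.norm_sq_clm,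
        sum_ed b fun e => (fderiv ℝ v x e) ^ 2]
      congr 1
      refine Finset.sum_congr rfl fun c _ => ?_
      have hn := card_Bs_pos hb c.1
      rw [ev_eq]
      simp only [map_sum, map_smul, smul_eq_mul, ← Finset.mul_sum, mul_pow, div_pow, one_pow,
        Real.sq_sqrt hn.le]
    have hpair : ∀ (k l : ι) (a : δ), b k = b l →
        ∫ x, (fderiv ℝ v x (EuclideanSpace.single (k, a) (1 : ℝ)) -
          fderiv ℝ v x (EuclideanSpace.single (l, a) (1 : ℝ))) ^ 2 ∂(mu ρ) ≤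
        L * ∫ x, ‖fderiv ℝ (fun z => fderiv ℝ v z (EuclideanSpace.single (k, a) (1 : ℝ))) x -
          fderiv ℝ (fun z => fderiv ℝ v z (EuclideanSpace.single (l, a) (1 : ℝ))) x‖ ^ 2
            ∂(mu ρ) := by
      intro k l a hbkl
      by_cases hkl : k = l
      · subst hkl
        simp
      · have h3 := hodd k l _ hkl hbkl (hdkl (k, a) (l, a)) (by
          intro x
          have e1 := fd_swp v h2 k l (hinv k l hbkl) x k a
          have e2 := fd_swp v h2 k l (hinv k l hbkl) x l a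
          rw [Equiv.swap_apply_left] at e1
          rw [Equiv.swap_apply_right] at e2
          rw [e1, e2]
          ring)
        refine h3.trans (le_of_eq ?_)
        congr 1
        refine integral_congr_ae (Filter.Eventually.of_forall fun x => ?_)
        show ‖fderiv ℝ (fun z => fderiv ℝ v z (EuclideanSpace.single (k, a) (1 : ℝ)) -
          fderiv ℝ v z (EuclideanSpace.single (l, a) (1 : ℝ))) x‖ ^ 2 = _
        rw [fderiv_fun_sub ((hdi (k, a)).differentiable (by norm_num) x)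
          ((hdi (l, a)).differentiable (by norm_num) x)]
    have i1 : ∀ p q : ι × δ, Integrable (fun x =>
        (fderiv ℝ v x (EuclideanSpace.single p (1 : ℝ)) -
          fderiv ℝ v x (EuclideanSpace.single q (1 : ℝ))) ^ 2) (mu ρ) := fun p q =>
      int_cont hρ ((hdkl p q).continuous.pow 2)
    have i2 : ∀ p q : ι × δ, Integrable (fun x =>
        ‖fderiv ℝ (fun z => fderiv ℝ v z (EuclideanSpace.single p (1 : ℝ))) x -
          fderiv ℝ (fun z => fderiv ℝ v z (EuclideanSpace.single q (1 : ℝ))) x‖ ^ 2) (mu ρ) :=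
      fun p q => int_cont hρ ((((hdi p).continuous_fderiv (by norm_num)).sub
        ((hdi q).continuous_fderiv (by norm_num))).norm.pow 2)
    have h4 : ∫ x, (‖fderiv ℝ v x‖ ^ 2 - ∑ j, (fderiv ℝ v x (ed δ b j)) ^ 2) ∂(mu ρ) =
        ∑ c : β × δ, 1 / (2 * ((Bs b c.1).card : ℝ)) * ∑ k ∈ Bs b c.1, ∑ l ∈ Bs b c.1,
          ∫ x, (fderiv ℝ v x (EuclideanSpace.single (k, c.2) (1 : ℝ)) -
          fderiv ℝ v x (EuclideanSpace.single (l, c.2) (1 : ℝ))) ^ 2 ∂(mu ρ) := by
      simp only [hleft]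
      rw [integral_finsetSum]
      · refine Finset.sum_congr rfl fun c _ => ?_
        rw [integral_const_mul, integral_finsetSum]
        · congr 1
          refine Finset.sum_congr rfl fun k _ => ?_
          rw [integral_finsetSum]
          intro l _
          exact i1 (k, c.2) (l, c.2)
        · intro k _
          exact integrable_finsetSum _ fun l _ => i1 (k, c.2) (l, c.2)
      · intro c _
        exact (integrable_finsetSum _ fun k _ => integrable_finsetSum _ fun l _ =>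
          i1 (k, c.2) (l, c.2)).const_mul _
    have h5 : ∑ c : β × δ, 1 / (2 * ((Bs b c.1).card : ℝ)) * ∑ k ∈ Bs b c.1, ∑ l ∈ Bs b c.1,
        ∫ x, ‖fderiv ℝ (fun z => fderiv ℝ v z (EuclideanSpace.single (k, c.2) (1 : ℝ))) x -
          fderiv ℝ (fun z => fderiv ℝ v z (EuclideanSpace.single (l, c.2) (1 : ℝ))) x‖ ^ 2
            ∂(mu ρ) ≤ ∫ x, hs v x ∂(mu ρ) := by
      have e1 : ∑ c : β × δ, 1 / (2 * ((Bs b c.1).card : ℝ)) * ∑ k ∈ Bs b c.1, ∑ l ∈ Bs b c.1,
        ∫ x, ‖fderiv ℝ (fun z => fderiv ℝ v z (EuclideanSpace.single (k, c.2) (1 : ℝ))) x -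
          fderiv ℝ (fun z => fderiv ℝ v z (EuclideanSpace.single (l, c.2) (1 : ℝ))) x‖ ^ 2
            ∂(mu ρ) =
        ∫ x, ∑ c : β × δ, 1 / (2 * ((Bs b c.1).card : ℝ)) * ∑ k ∈ Bs b c.1, ∑ l ∈ Bs b c.1,
          ‖fderiv ℝ (fun z => fderiv ℝ v z (EuclideanSpace.single (k, c.2) (1 : ℝ))) x -
          fderiv ℝ (fun z => fderiv ℝ v z (EuclideanSpace.single (l, c.2) (1 : ℝ))) x‖ ^ 2
            ∂(mu ρ) := by
        rw [integral_finsetSum]
        · refine Finset.sum_congr rfl fun c _ => ?_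
          rw [integral_const_mul, integral_finsetSum]
          · congr 1
            refine Finset.sum_congr rfl fun k _ => ?_
            rw [integral_finsetSum]
            intro l _
            exact i2 (k, c.2) (l, c.2)
          · intro k _
            exact integrable_finsetSum _ fun l _ => i2 (k, c.2) (l, c.2)
        · intro c _
          exact (integrable_finsetSum _ fun k _ => integrable_finsetSum _ fun l _ =>
            i2 (k, c.2) (l, c.2)).const_mul _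
      rw [e1]
      refine integral_mono ?_ (int_cont hρ (hs_cont h2)) ?_
      · exact integrable_finsetSum _ fun c _ => (integrable_finsetSum _ fun k _ =>
          integrable_finsetSum _ fun l _ => i2 (k, c.2) (l, c.2)).const_mul _
      · intro x
        show _ ≤ hs v x
        rw [hs_eq]
        exact alg2 hb (fun p => fderiv ℝ (fun z =>
          fderiv ℝ v z (EuclideanSpace.single p (1 : ℝ))) x)
    have h6 : 0 ≤ ∫ x, hs v x ∂(mu ρ) := by
      refine integral_nonneg fun x => ?_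
      show 0 ≤ hs v x
      rw [hs_eq]
      positivity
    rw [h4]
    calc ∑ c : β × δ, 1 / (2 * ((Bs b c.1).card : ℝ)) * ∑ k ∈ Bs b c.1, ∑ l ∈ Bs b c.1,
          ∫ x, (fderiv ℝ v x (EuclideanSpace.single (k, c.2) (1 : ℝ)) -
          fderiv ℝ v x (EuclideanSpace.single (l, c.2) (1 : ℝ))) ^ 2 ∂(mu ρ)
        ≤ ∑ c : β × δ, 1 / (2 * ((Bs b c.1).card : ℝ)) * ∑ k ∈ Bs b c.1, ∑ l ∈ Bs b c.1, L *
          ∫ x, ‖fderiv ℝ (fun z => fderiv ℝ v z (EuclideanSpace.single (k, c.2) (1 : ℝ))) x -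
          fderiv ℝ (fun z => fderiv ℝ v z (EuclideanSpace.single (l, c.2) (1 : ℝ))) x‖ ^ 2
            ∂(mu ρ) := by
          refine Finset.sum_le_sum fun c _ => mul_le_mul_of_nonneg_left ?_ (by positivity)
          refine Finset.sum_le_sum fun k hk => Finset.sum_le_sum fun l hl => hpair k l c.2 ?_
          rw [(mem_Bs b c.1 k).1 hk, (mem_Bs b c.1 l).1 hl]
      _ = L * ∑ c : β × δ, 1 / (2 * ((Bs b c.1).card : ℝ)) * ∑ k ∈ Bs b c.1, ∑ l ∈ Bs b c.1,
          ∫ x, ‖fderiv ℝ (fun z => fderiv ℝ v z (EuclideanSpace.single (k, c.2) (1 : ℝ))) x -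
          fderiv ℝ (fun z => fderiv ℝ v z (EuclideanSpace.single (l, c.2) (1 : ℝ))) x‖ ^ 2
            ∂(mu ρ) := by
          rw [Finset.mul_sum]
          refine Finset.sum_congr rfl fun c _ => ?_
          simp only [← Finset.mul_sum]
          ring
      _ ≤ L * ∫ x, hs v x ∂(mu ρ) := mul_le_mul_of_nonneg_left h5 hL.le
      _ ≤ K * ∫ x, hs v x ∂(mu ρ) := mul_le_mul_of_nonneg_right hLK h6

end Pool.Agent.TH594.KP
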